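import Pool.Agent.H73.AL.Euler
import Pool.Agent.MD.S.SymD

/-!
# THG/W-RelSP: the symmetric square L-functions of related lists of fields

PLAN.  Copy the proof of `rel_LT` (H73/AL/Euler.lean) with `sfac q (a q) s` instead of `efac a q s`: `SP F a T s = ∏' q, sfac q (a q) s ^ cnt F q`; summability: `gen_sum` (MD/S/SymD), `nrm_away`, `summable_nrm`; `Re s > 1`.
-/

namespace Pool.Agent.THG

open NumberField IsDedekindDomain Pool.Agent.HWR Pool.Agent.QD Pool.Agent.MD Pool.Agent.H73.AL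

private theorem eu_dvd {F : Type} [Field F] [NumberField F] (v : HeightOneSpectrum (𝓞 F)) (p : ℕ)
    (h : ((p : ℕ) : 𝓞 F) ∈ v.asIdeal) : nrm v ∣ p ^ Module.finrank ℤ (𝓞 F) := by
  unfold nrm
  have h1 : Ideal.span {((p : ℕ) : 𝓞 F)} ≤ v.asIdeal := by
    rw [Ideal.span_le, Set.singleton_subset_iff]
    exact h
  have h2 := Ideal.absNorm_dvd_absNorm_of_le h1
  rw [Ideal.absNorm_span_singleton] at h2
  have h3 : ((p : ℕ) : 𝓞 F) = algebraMap ℤ (𝓞 F) (p : ℤ) := by simp
  rw [h3, Algebra.norm_algebraMap, Int.natAbs_pow, Int.natAbs_natCast] at h2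
  exact h2

private theorem eu_away {F : Type} [Field F] [NumberField F] {T : Finset ℕ}
    (hTp : ∀ p ∈ T, p.Prime) (v : HeightOneSpectrum (𝓞 F)) :
    Away F T v ↔ ∀ p ∈ T, ¬ p ∣ nrm v := by
  have key : ∀ p : ℕ, p.Prime → (((p : ℕ) : 𝓞 F) ∈ v.asIdeal ↔ p ∣ nrm v) := by
    intro p hp
    constructor
    · intro h
      obtain ⟨k, _, hk⟩ := (Nat.dvd_prime_pow hp).1 (eu_dvd v p h)
      rw [hk]
      refine dvd_pow_self p ?_
      rintro rfl
      exact nrm_ne_one v (by rw [hk, pow_zero])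
    · intro h
      obtain ⟨l, hl, _, hmem⟩ := exists_prime_mem v (nrm v) (nrm_ne_zero v) (Ideal.absNorm_mem _)
      have h2 : p ∣ l := hp.dvd_of_dvd_pow (h.trans (eu_dvd v l hmem))
      rw [(Nat.prime_dvd_prime_iff_eq hp hl).1 h2]
      exact hmem
  unfold Away
  constructor
  · intro h p hp hd
    exact h p hp ((key p (hTp p hp)).2 hd)
  · intro h p hp hd
    exact h p hp ((key p (hTp p hp)).1 hd)

/-- number of places of norm `n` away from `T` -/
private noncomputable def euc (F : Type) [Field F] [NumberField F] (T : Finset ℕ) (n : ℕ) : ℕ :=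
  Nat.card {v : {v : HeightOneSpectrum (𝓞 F) // Away F T v} // nrm v.1 = n}

private theorem euc_good (F : Type) [Field F] [NumberField F] {T : Finset ℕ}
    (hTp : ∀ p ∈ T, p.Prime) {n : ℕ} (hn : ∀ p ∈ T, ¬ p ∣ n) : euc F T n = cnt F n := by
  unfold euc cnt
  refine Nat.card_congr
    { toFun := fun v => ⟨v.1.1, v.2⟩
      invFun := fun v => ⟨⟨v.1, (eu_away hTp v.1).2 (by
        have h : nrm v.1 = n := v.2
        rw [h]
        exact hn)⟩, v.2⟩
      left_inv := fun v => rfl
      right_inv := fun v => rfl }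

private theorem euc_bad (F : Type) [Field F] [NumberField F] {T : Finset ℕ}
    (hTp : ∀ p ∈ T, p.Prime) {n : ℕ} (hn : ¬ ∀ p ∈ T, ¬ p ∣ n) : euc F T n = 0 := by
  unfold euc
  have : IsEmpty {v : {v : HeightOneSpectrum (𝓞 F) // Away F T v} // nrm v.1 = n} := by
    refine ⟨fun v => hn ?_⟩
    rw [← v.2]
    exact (eu_away hTp v.1.1).1 v.1.2
  exact Nat.card_of_isEmpty

private theorem euc_zero (F : Type) [Field F] [NumberField F] (T : Finset ℕ) : euc F T 0 = 0 := by
  unfold euc
  have : IsEmpty {v : {v : HeightOneSpectrum (𝓞 F) // Away F T v} // nrm v.1 = 0} :=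
    ⟨fun v => nrm_ne_zero v.1.1 v.2⟩
  exact Nat.card_of_isEmpty

private theorem euc_finite (F : Type) [Field F] [NumberField F] (T : Finset ℕ) (n : ℕ) :
    Finite {v : {v : HeightOneSpectrum (𝓞 F) // Away F T v} // nrm v.1 = n} := by
  rcases eq_or_ne n 0 with rfl | hn
  · have : IsEmpty {v : {v : HeightOneSpectrum (𝓞 F) // Away F T v} // nrm v.1 = 0} :=
      ⟨fun v => nrm_ne_zero v.1.1 v.2⟩
    infer_instance
  · have := finite_cnt F hn
    refine Finite.of_injective
      (fun v : {v : {v : HeightOneSpectrum (𝓞 F) // Away F T v} // nrm v.1 = n} =>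
        (⟨v.1.1, v.2⟩ : {v : HeightOneSpectrum (𝓞 F) // Ideal.absNorm v.asIdeal = n})) ?_
    intro v w h
    apply Subtype.ext
    apply Subtype.ext
    exact congrArg (fun u : {v : HeightOneSpectrum (𝓞 F) // Ideal.absNorm v.asIdeal = n} => u.1) h

private theorem eu_sum (F : Type) [Field F] [NumberField F] (T : Finset ℕ) {x : ℝ} (hx : 1 < x) :
    Summable fun v : {v : HeightOneSpectrum (𝓞 F) // Away F T v} => (nrm v.1 : ℝ) ^ (-x) :=
  (summable_nrm F hx).comp_injective (Subtype.val_injective (p := fun w => Away F T w))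

private theorem eu_hasProd (F : Type) [Field F] [NumberField F] {a : ℕ → ℝ}
    (ha : ∀ q : ℕ, |a q| ≤ 2 * Real.sqrt q) {T : Finset ℕ}
    (hT : ∀ p : ℕ, p.Prime → p < 101 → p ∈ T) {s : ℂ} (hs : 1 < s.re) :
    HasProd (fun n : ℕ => sfac n (a n) s ^ euc F T n) (SP F a T s) := by
  have h0 : Summable fun v : {v : HeightOneSpectrum (𝓞 F) // Away F T v} =>
      ‖sfac (nrm v.1) (a (nrm v.1)) s - 1‖ :=
    gen_sum (fun v : {v : HeightOneSpectrum (𝓞 F) // Away F T v} => nrm v.1)
      (fun v => a (nrm v.1)) (fun v => nrm_ge F T hT v.1 v.2) (fun v => ha _)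
      (fun x hx => eu_sum F T hx) hs
  have h1 : HasProd (fun v : {v : HeightOneSpectrum (𝓞 F) // Away F T v} =>
      sfac (nrm v.1) (a (nrm v.1)) s) (SP F a T s) := by
    have h := (multipliable_one_add_of_summable h0).hasProd
    simp only [add_sub_cancel] at h
    exact h
  have h2 := (Equiv.sigmaFiberEquiv
    (fun v : {v : HeightOneSpectrum (𝓞 F) // Away F T v} => nrm v.1)).hasProd_iff.2 h1
  refine HasProd.sigma h2 fun n => ?_
  haveI := euc_finite F T n
  haveI := Fintype.ofFinite {v : {v : HeightOneSpectrum (𝓞 F) // Away F T v} // nrm v.1 = n}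
  have h3 := hasProd_fintype
    (fun v : {v : {v : HeightOneSpectrum (𝓞 F) // Away F T v} // nrm v.1 = n} =>
      sfac (nrm v.1.1) (a (nrm v.1.1)) s)
  have h4 : ∏ v : {v : {v : HeightOneSpectrum (𝓞 F) // Away F T v} // nrm v.1 = n},
      sfac (nrm v.1.1) (a (nrm v.1.1)) s = sfac n (a n) s ^ euc F T n := by
    rw [Finset.prod_congr rfl (fun v _ => by rw [v.2] :
      ∀ v ∈ (Finset.univ : Finset {v : {v : HeightOneSpectrum (𝓞 F) // Away F T v} //
        nrm v.1 = n}), sfac (nrm v.1.1) (a (nrm v.1.1)) s = sfac n (a n) s),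
      Finset.prod_const, Finset.card_univ, ← Nat.card_eq_fintype_card]
    rfl
  rw [h4] at h3
  exact h3

private theorem eu_list (A : List NF) {a : ℕ → ℝ}
    (ha : ∀ q : ℕ, |a q| ≤ 2 * Real.sqrt q) {T : Finset ℕ}
    (hT : ∀ p : ℕ, p.Prime → p < 101 → p ∈ T) {s : ℂ} (hs : 1 < s.re) :
    HasProd (fun n : ℕ => sfac n (a n) s ^ (A.map fun F => euc F.F T n).sum)
      (A.map fun F => SP F.F a T s).prod := by
  induction A with
  | nil => simpa using (hasProd_one : HasProd (fun _ : ℕ => (1 : ℂ)) 1)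
  | cons F A ih =>
    simp only [List.map_cons, List.sum_cons, List.prod_cons, pow_add]
    exact (eu_hasProd F.F ha hT hs).mul ih

theorem rel_SP {T : Finset ℕ} {A B : List NF} (h : Rel T A B) {a : ℕ → ℝ}
    (ha : ∀ q : ℕ, |a q| ≤ 2 * Real.sqrt q) (hTp : ∀ p ∈ T, p.Prime)
    (hT : ∀ p : ℕ, p.Prime → p < 101 → p ∈ T) {s : ℂ} (hs : 1 < s.re) :
    (A.map fun F => SP F.F a T s).prod = (B.map fun F => SP F.F a T s).prod := by
  have hc : ∀ n : ℕ, (A.map fun F => euc F.F T n).sum = (B.map fun F => euc F.F T n).sum := by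
    intro n
    rcases eq_or_ne n 0 with rfl | hn
    · simp only [euc_zero]
      simp
    · by_cases hg : ∀ p ∈ T, ¬ p ∣ n
      · simp only [euc_good _ hTp hg]
        exact rel_count h n hn
      · simp only [euc_bad _ hTp hg]
        simp
  have h1 := eu_list A ha hT hs
  have h2 := eu_list B ha hT hs
  simp only [hc] at h1
  exact h1.unique h2

end Pool.Agent.THG
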