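import Pool.Agent.THG.W.ND
import Pool.Agent.THG.W.RelSP
import Pool.Agent.THG.G.Chi
import Pool.Agent.H73.AL.Real

/-!
# THG/W-Cmp: the numbers `kF` are additive in relations

PLAN.  `kF D a K` is `kk` of a chosen sign function (`kF_spec`: `Classical.epsilon_spec` with `exists_chi`).  By induction on a list `A` of fields: there are `A0, b` such that for all `X, R` (`0 < X`, `A0 < R`) there are `PN, PD` with `PN z = PD z * ∏_{F ∈ A} SP F z` for `A0 < Re z` in the box and at `-j` the orders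
`∑ (2 n + 2 r2 + k)` and `∑ (n + r2)` (`exists_ND`, `LogO.mul`; `max` of the constants `A`, `min` of the `b`; the empty list: `1`, `1`).  For related lists `A`, `B`: `PN_A * PD_B = PN_B * PD_A` for `Re z` large (`rel_SP`), so on the whole box (convex, identity theorem); at `-j` with `j` large, `X = j + 1`:
`∑_A (2n + 2 r2 + k) + ∑_B (n + r2) = ∑_B (2n + 2 r2 + k) + ∑_A (n + r2)` (`LogO.mul`, `logO_unique`, THF/O/Defs; `-j + δ` is in the box).  `rel_finrank`, `rel_complex` (H73/AL/Real).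
-/

namespace Pool.Agent.THG

open NumberField IsDedekindDomain Pool.Agent.HWR Pool.Agent.QD Pool.Agent.QD.In Pool.Agent.LD
  Pool.Agent.MD Pool.Agent.THF Pool.Agent.H73.AL

private theorem cmp_one (z : ℂ) : LogO (fun _ => (1 : ℂ)) z ((0 : ℕ) : ℝ) := by
  refine ⟨0, 1, one_pos, fun δ _ _ => ⟨one_ne_zero, ?_⟩⟩
  simp

private theorem cmp_open (X R : ℝ) : IsOpen (Bo X R) := by
  have h1 : IsOpen {z : ℂ | -X < z.re} := isOpen_lt continuous_const Complex.continuous_re
  have h2 : IsOpen {z : ℂ | z.re < R} := isOpen_lt Complex.continuous_re continuous_const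
  have h3 : IsOpen {z : ℂ | |z.im| < 1} :=
    isOpen_lt (continuous_abs.comp Complex.continuous_im) continuous_const
  exact h1.inter (h2.inter h3)

private theorem cmp_conv (X R : ℝ) : Convex ℝ (Bo X R) := by
  have h1 : Convex ℝ {z : ℂ | -X < z.re} := convex_halfSpace_re_gt _
  have h2 : Convex ℝ {z : ℂ | z.re < R} := convex_halfSpace_re_lt _
  have h3 : Convex ℝ {z : ℂ | -1 < z.im} := convex_halfSpace_im_gt _
  have h4 : Convex ℝ {z : ℂ | z.im < 1} := convex_halfSpace_im_lt _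
  have h5 : Bo X R = {z : ℂ | -X < z.re} ∩ ({z : ℂ | z.re < R} ∩
      ({z : ℂ | -1 < z.im} ∩ {z : ℂ | z.im < 1})) := by
    ext z
    constructor
    · rintro ⟨h6, h7, h8⟩
      exact ⟨h6, h7, (abs_lt.1 h8).1, (abs_lt.1 h8).2⟩
    · rintro ⟨h6, h7, h8, h9⟩
      exact ⟨h6, h7, abs_lt.2 ⟨h8, h9⟩⟩
  rw [h5]
  exact h1.inter (h2.inter (h3.inter h4))

variable {T : Finset ℕ} (D : LocData T) (a : ℕ → ℝ)

/-- the chosen signs -/
noncomputable def eF (K : Type) [Field K] [NumberField K] : (K →+* ℝ) → ℤ :=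
  Classical.epsilon fun e : (K →+* ℝ) → ℤ => (∀ φ, e φ = 1 ∨ e φ = -1) ∧
    ∀ x : Kˣ, SG D a x (chi e x)

/-- the number of real embeddings with sign `1` -/
noncomputable def kF (K : Type) [Field K] [NumberField K] : ℕ := kk (eF D a K)

variable {a} (hTp : ∀ p ∈ T, p.Prime) (hT : ∀ p : ℕ, p.Prime → p < 101 → p ∈ T)
  (ha : ∀ q : ℕ, |a q| ≤ 2 * Real.sqrt q) (hfr : FrobRel T a) (hE : ExPM D a)

include hTp hT ha hE

theorem eF_spec (K : Type) [Field K] [NumberField K] : (∀ φ, eF D a K φ = 1 ∨ eF D a K φ = -1) ∧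
    ∀ x : Kˣ, SG D a x (chi (eF D a K) x) :=
  Classical.epsilon_spec (exists_chi hTp hT D ha hE K)

include hfr

private theorem cmp_list (A : List NF) : ∃ A0 b : ℝ, 1 ≤ A0 ∧ ∀ X R : ℝ, 0 < X → A0 < R →
    ∃ N Dd : ℂ → ℂ, DifferentiableOn ℂ N (Bo X R) ∧ DifferentiableOn ℂ Dd (Bo X R) ∧
      (∀ z ∈ Bo X R, A0 < z.re → N z = Dd z * (A.map fun F => SP F.F a T z).prod) ∧
      ∀ j : ℕ, (j : ℝ) < X → -(j : ℝ) < b →
        LogO N (-(j : ℂ)) (((A.map fun F => 2 * Module.finrank ℚ F.F +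
          2 * InfinitePlace.nrComplexPlaces F.F + kF D a F.F).sum : ℕ) : ℝ) ∧
        LogO Dd (-(j : ℂ)) (((A.map fun F => Module.finrank ℚ F.F +
          InfinitePlace.nrComplexPlaces F.F).sum : ℕ) : ℝ) := by
  induction A with
  | nil =>
    refine ⟨1, 0, le_rfl, fun X R _ _ => ⟨fun _ => 1, fun _ => 1, differentiableOn_const _,
      differentiableOn_const _, fun z _ _ => by simp, fun j _ _ => ⟨?_, ?_⟩⟩⟩
    · simpa using cmp_one (-(j : ℂ))
    · simpa using cmp_one (-(j : ℂ))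
  | cons F A ih =>
    obtain ⟨A1, b1, hA1, h1⟩ := ih
    obtain ⟨A2, b2, hA2, h2⟩ := exists_ND hTp hT D ha hfr hE F.F
      (eF_spec D hTp hT ha hE F.F).1 (eF_spec D hTp hT ha hE F.F).2
    refine ⟨max A1 A2, min b1 b2, hA1.trans (le_max_left _ _), fun X R hX hR => ?_⟩
    obtain ⟨N1, D1, hN1, hD1, he1, ho1⟩ := h1 X R hX ((le_max_left _ _).trans_lt hR)
    obtain ⟨N2, D2, hN2, hD2, he2, ho2⟩ := h2 X R hX ((le_max_right _ _).trans_lt hR)
    refine ⟨fun s => N2 s * N1 s, fun s => D2 s * D1 s, hN2.mul hN1, hD2.differentiableOn.mul hD1,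
      fun z hz hzA => ?_, fun j hj hjb => ⟨?_, ?_⟩⟩
    · show N2 z * N1 z = D2 z * D1 z * ((F :: A).map fun F => SP F.F a T z).prod
      rw [he1 z hz ((le_max_left _ _).trans_lt hzA), he2 z hz ((le_max_right _ _).trans_lt hzA),
        List.map_cons, List.prod_cons]
      ring
    · have e1 := (ho2 j hj (hjb.trans_le (min_le_right _ _))).1.mul
        (ho1 j hj (hjb.trans_le (min_le_left _ _))).1
      rw [List.map_cons, List.sum_cons, Nat.cast_add]
      exact e1
    · have e1 := (ho2 j hj (hjb.trans_le (min_le_right _ _))).2.mul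
        (ho1 j hj (hjb.trans_le (min_le_left _ _))).2
      rw [List.map_cons, List.sum_cons, Nat.cast_add]
      exact e1

omit hTp hT ha hE hfr in
private theorem cmp_sum1 (A : List NF) :
    (A.map fun F => 2 * Module.finrank ℚ F.F + 2 * InfinitePlace.nrComplexPlaces F.F +
      kF D a F.F).sum = 2 * (A.map fun F => Module.finrank ℚ F.F).sum +
        2 * (A.map fun F => InfinitePlace.nrComplexPlaces F.F).sum +
          (A.map fun F => kF D a F.F).sum := by
  induction A with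
  | nil => simp
  | cons F A ih =>
    simp only [List.map_cons, List.sum_cons, ih]
    ring

omit hTp hT ha hE hfr in
private theorem cmp_sum2 (A : List NF) :
    (A.map fun F => Module.finrank ℚ F.F + InfinitePlace.nrComplexPlaces F.F).sum =
      (A.map fun F => Module.finrank ℚ F.F).sum +
        (A.map fun F => InfinitePlace.nrComplexPlaces F.F).sum := by
  induction A with
  | nil => simp
  | cons F A ih =>
    simp only [List.map_cons, List.sum_cons, ih]
    ring

theorem cmp {A B : List NF} (h : Rel T A B) :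
    (A.map fun F => kF D a F.F).sum = (B.map fun F => kF D a F.F).sum := by
  obtain ⟨A1, b1, hA1, h1⟩ := cmp_list D hTp hT ha hfr hE A
  obtain ⟨A2, b2, hA2, h2⟩ := cmp_list D hTp hT ha hfr hE B
  obtain ⟨j, hj⟩ := exists_nat_gt (max (-b1) (-b2))
  have hj1 : -(j : ℝ) < b1 := by
    have := (le_max_left (-b1) (-b2)).trans_lt hj
    linarith
  have hj2 : -(j : ℝ) < b2 := by
    have := (le_max_right (-b1) (-b2)).trans_lt hj
    linarith
  have hj0 : (0 : ℝ) ≤ j := Nat.cast_nonneg j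
  have hX : (0 : ℝ) < (j : ℝ) + 1 := by linarith
  obtain ⟨N1, D1, hN1, hD1, he1, ho1⟩ := h1 (j + 1) (max A1 A2 + 1) hX
    (by linarith [le_max_left A1 A2])
  obtain ⟨N2, D2, hN2, hD2, he2, ho2⟩ := h2 (j + 1) (max A1 A2 + 1) hX
    (by linarith [le_max_right A1 A2])
  obtain ⟨p1, p2⟩ := ho1 j (by linarith) hj1
  obtain ⟨q1, q2⟩ := ho2 j (by linarith) hj2
  set U : Set ℂ := Bo (j + 1) (max A1 A2 + 1) with hU
  have hopen : IsOpen U := cmp_open _ _
  have hconn : IsPreconnected U := (cmp_conv _ _).isPreconnected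
  have hf : AnalyticOnNhd ℂ (fun s => N1 s * D2 s) U := (hN1.mul hD2).analyticOnNhd hopen
  have hg : AnalyticOnNhd ℂ (fun s => N2 s * D1 s) U := (hN2.mul hD1).analyticOnNhd hopen
  have hm1 : A1 ≤ max A1 A2 := le_max_left _ _
  have hm2 : A2 ≤ max A1 A2 := le_max_right _ _
  have hz0 : (((max A1 A2 + 1 / 2 : ℝ)) : ℂ) ∈ U := by
    rw [hU]
    refine ⟨?_, ?_, ?_⟩
    · rw [Complex.ofReal_re]
      linarith
    · rw [Complex.ofReal_re]
      linarith
    · rw [Complex.ofReal_im, abs_zero]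
      exact one_pos
  have hev : (fun s => N1 s * D2 s) =ᶠ[nhds (((max A1 A2 + 1 / 2 : ℝ)) : ℂ)]
      fun s => N2 s * D1 s := by
    have hV : IsOpen {z : ℂ | max A1 A2 < z.re} :=
      isOpen_lt continuous_const Complex.continuous_re
    have hmem : (((max A1 A2 + 1 / 2 : ℝ)) : ℂ) ∈ {z : ℂ | max A1 A2 < z.re} := by
      rw [Set.mem_ofPred_eq, Complex.ofReal_re]
      linarith
    filter_upwards [hopen.mem_nhds hz0, hV.mem_nhds hmem] with z hz hzV
    have hzV' : max A1 A2 < z.re := hzV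
    show N1 z * D2 z = N2 z * D1 z
    rw [he1 z hz (hm1.trans_lt hzV'), he2 z hz (hm2.trans_lt hzV'),
      rel_SP h ha hTp hT (by linarith : (1 : ℝ) < z.re)]
    ring
  have heq : Set.EqOn (fun s => N1 s * D2 s) (fun s => N2 s * D1 s) U :=
    hf.eqOn_of_preconnected_of_eventuallyEq hg hconn hz0 hev
  have hlog : LogO (fun s => N2 s * D1 s) (-(j : ℂ)) _ := (p1.mul q2).congr (ε := 1) one_pos
    (fun δ h0 h1 => heq (by
      rw [hU]
      have e1 : (-(j : ℂ) + (δ : ℂ)).re = -(j : ℝ) + δ := by simp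
      have e2 : (-(j : ℂ) + (δ : ℂ)).im = 0 := by simp
      refine ⟨?_, ?_, ?_⟩
      · rw [e1]
        linarith
      · rw [e1]
        linarith
      · rw [e2, abs_zero]
        exact one_pos))
  have hfin := logO_unique hlog (q1.mul p2)
  have r1 := rel_finrank h
  have r2 := rel_complex h
  have hfin' : (A.map fun F => 2 * Module.finrank ℚ F.F + 2 * InfinitePlace.nrComplexPlaces F.F +
      kF D a F.F).sum + (B.map fun F => Module.finrank ℚ F.F +
        InfinitePlace.nrComplexPlaces F.F).sum =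
      (B.map fun F => 2 * Module.finrank ℚ F.F + 2 * InfinitePlace.nrComplexPlaces F.F +
      kF D a F.F).sum + (A.map fun F => Module.finrank ℚ F.F +
        InfinitePlace.nrComplexPlaces F.F).sum := by
    exact_mod_cast hfin
  rw [cmp_sum1 D A, cmp_sum1 D B, cmp_sum2 A, cmp_sum2 B] at hfin'
  omega

end Pool.Agent.THG
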