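import Pool.Agent.THG.W.Zo
import Pool.Agent.THG.V.EP
import Pool.Agent.THG.V.GGX
import Pool.Agent.QD.N1Main
import Pool.Agent.MD.S.Defs
import Pool.Agent.H73.AL.Final

/-!
# THG/W-Dd: the known factor: orders at the far negative integers

`Lne D a F Λ s` is the L-function of `K` without the Euler factors at `F`, as an entire function: `Λ s * A^(-s/2) * (gam1 s)⁻¹ ^ n * pl s * ∏ v ∈ F, (1 - a_v N^(-s) + N^(1-2s))`.
PLAN.  `Lne_diff`: `Λ` entire, `(gam1 s)⁻¹` entire (`invgam1_diff`, QD/In/Gam), `pl` entire (`pl_ep`, `Ep.diff`).  `Lne_eq`: definition of `D.Lam`; `gam1_ne`, `pl_ne`, `A > 0`.  `Lne_ord`: `Λ (-j) = ± Λ (2 + j) ≠ 0` and the same at `-j + 1/2` (`Lam_ne`, H73/AL/Final); `A^(-s/2)` never `0`; `(gam1 s)⁻¹ ^ n`: order `n` resp. `0` (`ord_ig`, `ord_ig2`, powers: `logO_pow`,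
THF/O/Defs, or induction with `LogO.mul`); `pl` and the product over `F` are `Ep` functions, not identically zero (`pl_ne`; quadratic factors at large `Re s`, see `bf_quad_ne`, MD/S/Bfun): `Ep.ne`: nonzero for `Re s < b`.
-/

namespace Pool.Agent.THG

open NumberField IsDedekindDomain Pool.Agent.HWR Pool.Agent.QD Pool.Agent.QD.In Pool.Agent.LD
  Pool.Agent.MD

variable {K : Type} [Field K] [NumberField K] {T : Finset ℕ} (D : LocData T)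

/-- L-function of `K` without the Euler factors at `F` -/
noncomputable def Lne (a : ℕ → ℝ) (F : Finset (HeightOneSpectrum (𝓞 K))) (Λ : ℂ → ℂ) (s : ℂ) : ℂ :=
  Λ s * ((D.A K : ℝ) : ℂ) ^ (-s / 2) * (gam1 s)⁻¹ ^ Module.finrank ℚ K * D.pl K s *
    ∏ v ∈ F, (1 - (a (nrm v) : ℂ) * (nrm v : ℂ) ^ (-s) + (nrm v : ℂ) ^ (1 - 2 * s))

private theorem dd_nrm_pos (v : HeightOneSpectrum (𝓞 K)) : 0 < nrm v := by
  unfold nrm
  rw [Nat.pos_iff_ne_zero, Ideal.absNorm_ne_zero_iff]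
  exact Ring.HasFiniteQuotients.finiteQuotient v.ne_bot

private theorem dd_quad_ep (a : ℕ → ℝ) {q : ℕ} (hq : 0 < q) :
    Ep fun s : ℂ => 1 - (a q : ℂ) * (q : ℂ) ^ (-s) + (q : ℂ) ^ (1 - 2 * s) := by
  have hq' : (0 : ℝ) < (q : ℝ) := by exact_mod_cast hq
  have h1 := ((Ep.const 1).sub ((Ep.const (a q : ℂ)).mul (Ep.cpow hq' (-1) 0))).add
    (Ep.cpow hq' (-2) 1)
  have h2 : (fun s : ℂ => 1 - (a q : ℂ) * (q : ℂ) ^ (-s) + (q : ℂ) ^ (1 - 2 * s)) =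
      fun z : ℂ => 1 - (a q : ℂ) * ((q : ℝ) : ℂ) ^ (((-1 : ℝ) : ℂ) * z + ((0 : ℝ) : ℂ)) +
        ((q : ℝ) : ℂ) ^ (((-2 : ℝ) : ℂ) * z + ((1 : ℝ) : ℂ)) := by
    funext s
    have e1 : (((-1 : ℝ) : ℂ) * s + ((0 : ℝ) : ℂ)) = -s := by push_cast; ring
    have e2 : (((-2 : ℝ) : ℂ) * s + ((1 : ℝ) : ℂ)) = 1 - 2 * s := by push_cast; ring
    rw [e1, e2]
    push_cast
    rfl
  rw [h2]
  exact h1

private theorem dd_prod_ep {ι : Type} (S : Finset ι) {f : ι → ℂ → ℂ} (h : ∀ i ∈ S, Ep (f i)) :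
    Ep fun s => ∏ i ∈ S, f i s := by
  classical
  induction S using Finset.induction_on with
  | empty =>
    simp only [Finset.prod_empty]
    exact Ep.const 1
  | insert i S hi ih =>
    have h1 := (h i (Finset.mem_insert_self i S)).mul
      (ih fun k hk => h k (Finset.mem_insert_of_mem hk))
    have h2 : (fun s => ∏ i ∈ insert i S, f i s) = fun z => f i z * ∏ i ∈ S, f i z := by
      funext s
      rw [Finset.prod_insert hi]
    rw [h2]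
    exact h1

private theorem dd_ep (a : ℕ → ℝ) (F : Finset (HeightOneSpectrum (𝓞 K))) :
    Ep fun s : ℂ => D.pl K s *
      ∏ v ∈ F, (1 - (a (nrm v) : ℂ) * (nrm v : ℂ) ^ (-s) + (nrm v : ℂ) ^ (1 - 2 * s)) :=
  (pl_ep D K).mul (dd_prod_ep F fun v _ => dd_quad_ep a (dd_nrm_pos v))

private theorem dd_quad_ne {a : ℕ → ℝ} (ha : ∀ q : ℕ, |a q| ≤ 2 * Real.sqrt q) {q : ℕ}
    (hq : 101 ≤ q) {t : ℂ} (ht : 1 / 2 < t.re) :
    1 - (a q : ℂ) * (q : ℂ) ^ (-t) + (q : ℂ) ^ (1 - 2 * t) ≠ 0 := by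
  have hq0 : 0 < q := by omega
  have hq1 : (1 : ℝ) < q := by
    have h : (1 : ℕ) < q := by omega
    exact_mod_cast h
  have hqp : (0 : ℝ) < q := by linarith
  have hqc : (q : ℂ) ≠ 0 := by exact_mod_cast hq0.ne'
  have h1 : Real.sqrt q * ‖(q : ℂ) ^ (-t)‖ < 1 := by
    rw [Complex.norm_natCast_cpow_of_pos hq0, Complex.neg_re, Real.sqrt_eq_rpow,
      ← Real.rpow_add hqp]
    refine Real.rpow_lt_one_of_one_lt_of_neg hq1 ?_
    linarith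
  have h2 := quad_ne (Real.sqrt_nonneg (q : ℝ)) (ha q) (Real.sq_sqrt hqp.le).symm h1
  have h3 : (q : ℂ) ^ (1 - 2 * t) = ((q : ℝ) : ℂ) * ((q : ℂ) ^ (-t)) ^ 2 := by
    have h4 : (1 - 2 * t : ℂ) = 1 + (-t + -t) := by ring
    rw [h4, Complex.cpow_add _ _ hqc, Complex.cpow_one, Complex.cpow_add _ _ hqc, sq]
    push_cast
    rfl
  rw [h3]
  exact h2

private theorem dd_A_ne : ((D.A K : ℝ) : ℂ) ≠ 0 := by
  exact_mod_cast (H73.AL.A_pos D K).ne'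

private theorem dd_pow_diff : Differentiable ℂ fun s : ℂ => ((D.A K : ℝ) : ℂ) ^ (-s / 2) :=
  (differentiable_neg.div_const 2).const_cpow (Or.inl (dd_A_ne D))

private theorem dd_pow_ne (s : ℂ) : ((D.A K : ℝ) : ℂ) ^ (-s / 2) ≠ 0 := by
  rw [Complex.cpow_def_of_ne_zero (dd_A_ne D)]
  exact Complex.exp_ne_zero _

theorem Lne_diff (a : ℕ → ℝ) (F : Finset (HeightOneSpectrum (𝓞 K))) {Λ : ℂ → ℂ}
    (h : Differentiable ℂ Λ) : Differentiable ℂ (Lne D a F Λ) := by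
  have h1 := (dd_ep D a F).diff
  have h2 : Lne D a F Λ = fun s => (Λ s * ((D.A K : ℝ) : ℂ) ^ (-s / 2) *
      (gam1 s)⁻¹ ^ Module.finrank ℚ K) * (D.pl K s *
      ∏ v ∈ F, (1 - (a (nrm v) : ℂ) * (nrm v : ℂ) ^ (-s) + (nrm v : ℂ) ^ (1 - 2 * s))) := by
    funext s
    unfold Lne
    ring
  rw [h2]
  exact ((h.mul (dd_pow_diff D)).mul (invgam1_diff.pow _)).mul h1

theorem Lne_eq (hTp : ∀ p ∈ T, p.Prime) (a : ℕ → ℝ) (F : Finset (HeightOneSpectrum (𝓞 K)))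
    {Λ : ℂ → ℂ} {s : ℂ} (hs : 3 / 2 < s.re) (h : Λ s = D.Lam a K s) :
    Lne D a F Λ s = LT K a T s *
      ∏ v ∈ F, (1 - (a (nrm v) : ℂ) * (nrm v : ℂ) ^ (-s) + (nrm v : ℂ) ^ (1 - 2 * s)) := by
  unfold Lne
  rw [h]
  unfold LocData.Lam
  have h1 : ((D.A K : ℝ) : ℂ) ^ (s / 2) * ((D.A K : ℝ) : ℂ) ^ (-s / 2) = 1 := by
    rw [← Complex.cpow_add _ _ (dd_A_ne D)]
    have e : s / 2 + -s / 2 = 0 := by ring
    rw [e, Complex.cpow_zero]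
  have h2 : gam1 s ^ Module.finrank ℚ K * (gam1 s)⁻¹ ^ Module.finrank ℚ K = 1 := by
    rw [← mul_pow, mul_inv_cancel₀ (gam1_ne (by linarith)), one_pow]
  have h3 : D.pl K s ≠ 0 := H73.AL.pl_ne D hTp K (by linarith)
  calc ((D.A K : ℝ) : ℂ) ^ (s / 2) * gam1 s ^ Module.finrank ℚ K * (LT K a T s / D.pl K s) *
        ((D.A K : ℝ) : ℂ) ^ (-s / 2) * (gam1 s)⁻¹ ^ Module.finrank ℚ K * D.pl K s *
        ∏ v ∈ F, (1 - (a (nrm v) : ℂ) * (nrm v : ℂ) ^ (-s) + (nrm v : ℂ) ^ (1 - 2 * s))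
      = (((D.A K : ℝ) : ℂ) ^ (s / 2) * ((D.A K : ℝ) : ℂ) ^ (-s / 2)) *
        (gam1 s ^ Module.finrank ℚ K * (gam1 s)⁻¹ ^ Module.finrank ℚ K) *
        (LT K a T s / D.pl K s * D.pl K s) *
        ∏ v ∈ F, (1 - (a (nrm v) : ℂ) * (nrm v : ℂ) ^ (-s) + (nrm v : ℂ) ^ (1 - 2 * s)) := by
        ring
    _ = _ := by
        rw [h1, h2, div_mul_cancel₀ _ h3, one_mul, one_mul]

private theorem dd_ord0 {f : ℂ → ℂ} {z : ℂ} (hf : AnalyticAt ℂ f z) (h : f z ≠ 0) :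
    LogO f z 0 := by
  have h1 := logO_of hf (n := 0) (by rw [Nat.cast_zero]; exact hf.analyticOrderAt_eq_zero.2 h)
  rwa [Nat.cast_zero] at h1

theorem Lne_ord (hTp : ∀ p ∈ T, p.Prime) (hT : ∀ p : ℕ, p.Prime → p < 101 → p ∈ T) {a : ℕ → ℝ}
    (ha : ∀ q : ℕ, |a q| ≤ 2 * Real.sqrt q) (F : Finset (HeightOneSpectrum (𝓞 K)))
    (hF : ∀ v ∈ F, Away K T v) {Λ : ℂ → ℂ} (h : Differentiable ℂ Λ)
    (hfe : (∀ s : ℂ, Λ s = Λ (2 - s)) ∨ ∀ s : ℂ, Λ s = -Λ (2 - s))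
    (he : ∀ s : ℂ, 3 / 2 < s.re → Λ s = D.Lam a K s) : ∃ b : ℝ, ∀ j : ℕ, -(j : ℝ) < b →
      LogO (Lne D a F Λ) (-(j : ℂ)) (Module.finrank ℚ K) ∧
        LogO (fun s => Lne D a F Λ (s + 1 / 2)) (-(j : ℂ)) 0 := by
  have hep := dd_ep D a F
  obtain ⟨P, hP⟩ : ∃ P : ℂ → ℂ, P = fun s : ℂ => D.pl K s *
      ∏ v ∈ F, (1 - (a (nrm v) : ℂ) * (nrm v : ℂ) ^ (-s) + (nrm v : ℂ) ^ (1 - 2 * s)) := ⟨_, rfl⟩
  rw [← hP] at hep
  have hPd : Differentiable ℂ P := hep.diff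
  have h2 : P 2 ≠ 0 := by
    rw [hP]
    refine mul_ne_zero (H73.AL.pl_ne D hTp K ?_) (Finset.prod_ne_zero_iff.2 fun v hv =>
      dd_quad_ne ha (nrm_away K T hT v (hF v hv)) ?_) <;>
    · rw [Complex.re_ofNat]
      norm_num
  obtain ⟨b, hb⟩ := hep.ne h2
  have hL : Lne D a F Λ = fun s => (Λ s * ((D.A K : ℝ) : ℂ) ^ (-s / 2) *
      (gam1 s)⁻¹ ^ Module.finrank ℚ K) * P s := by
    funext s
    rw [hP]
    unfold Lne
    ring
  have hΛ : ∀ s : ℂ, s.re < 1 / 2 → Λ s ≠ 0 := by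
    intro s hs
    have h3 : 3 / 2 < (2 - s).re := by
      rw [Complex.sub_re, Complex.re_ofNat]
      linarith
    have h4 : Λ (2 - s) ≠ 0 := by
      rw [he _ h3]
      exact H73.AL.Lam_ne D hTp hT ha K h3
    rcases hfe with h5 | h5
    · rw [h5 s]
      exact h4
    · rw [h5 s]
      exact neg_ne_zero.2 h4
  refine ⟨min (b - 1 / 2) 0, fun j hj => ?_⟩
  have hj1 : -(j : ℝ) < b - 1 / 2 := lt_of_lt_of_le hj (min_le_left _ _)
  have hj2 : -(j : ℝ) < 0 := lt_of_lt_of_le hj (min_le_right _ _)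
  have hj3 : (1 : ℝ) ≤ j := by
    have h5 : 0 < j := by
      have : (0 : ℝ) < (j : ℝ) := by linarith
      exact_mod_cast this
    exact_mod_cast h5
  have hre : (-(j : ℂ)).re = -(j : ℝ) := by
    rw [Complex.neg_re, Complex.natCast_re]
  have hre2 : (-(j : ℂ) + 1 / 2).re = -(j : ℝ) + 1 / 2 := by
    rw [Complex.add_re, hre]
    norm_num
  rw [hL]
  constructor
  · have e1 : LogO Λ (-(j : ℂ)) 0 := dd_ord0 (h.analyticAt _) (hΛ _ (by rw [hre]; linarith))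
    have e2 : LogO (fun s : ℂ => ((D.A K : ℝ) : ℂ) ^ (-s / 2)) (-(j : ℂ)) 0 :=
      dd_ord0 ((dd_pow_diff D).analyticAt _) (dd_pow_ne D _)
    have e3 := THF.logO_pow (Module.finrank ℚ K) (ord_ig j)
    have e4 : LogO P (-(j : ℂ)) 0 := dd_ord0 (hPd.analyticAt _) (hb _ (by rw [hre]; linarith))
    have e5 := ((e1.mul e2).mul e3).mul e4
    have e6 : (0 + 0 + (Module.finrank ℚ K : ℝ) * 1 + 0 : ℝ) = (Module.finrank ℚ K : ℝ) := by ring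
    rw [e6] at e5
    exact e5
  · have hsh : Differentiable ℂ fun s : ℂ => s + 1 / 2 := differentiable_id.add_const _
    have e1 : LogO (fun s => Λ (s + 1 / 2)) (-(j : ℂ)) 0 :=
      dd_ord0 ((h.comp hsh).analyticAt _) (hΛ _ (by rw [hre2]; linarith))
    have e2 : LogO (fun s : ℂ => ((D.A K : ℝ) : ℂ) ^ (-(s + 1 / 2) / 2)) (-(j : ℂ)) 0 :=
      dd_ord0 (((dd_pow_diff D).comp hsh).analyticAt _) (dd_pow_ne D _)
    have e3 := THF.logO_pow (Module.finrank ℚ K) (ord_ig2 j)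
    have e4 : LogO (fun s => P (s + 1 / 2)) (-(j : ℂ)) 0 :=
      dd_ord0 ((hPd.comp hsh).analyticAt _) (hb _ (by rw [hre2]; linarith))
    have e5 := ((e1.mul e2).mul e3).mul e4
    have e6 : (0 + 0 + (Module.finrank ℚ K : ℝ) * 0 + 0 : ℝ) = 0 := by ring
    rw [e6] at e5
    exact e5

end Pool.Agent.THG
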