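import Pool.Agent.MD.S.OrdL
import Pool.Agent.QD.ZDefs

/-!
# THG/W-Gam: orders of the gamma factors at the negative integers

`1/Γ` is entire and has simple zeros at `0, -1, ..`; all the other factors are products of this function (at an affine
argument) and of analytic functions which do not vanish at the point.
-/

namespace Pool.Agent.THG

open Pool.Agent.HWR Pool.Agent.QD Pool.Agent.MD

private theorem THG_Gam_zero {f : ℂ → ℂ} {z : ℂ} (hf : AnalyticAt ℂ f z) (h : f z ≠ 0) :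
    LogO f z 0 := by
  have h1 := logO_of hf (n := 0) (by exact_mod_cast hf.analyticOrderAt_eq_zero.2 h)
  simpa using h1

private theorem THG_Gam_id : LogO (fun s => s) 0 1 := by
  refine ⟨0, 1, one_pos, fun δ h0 _ => ⟨?_, ?_⟩⟩
  · show (0 : ℂ) + (δ : ℂ) ≠ 0
    rw [zero_add]
    exact_mod_cast h0.ne'
  · dsimp only
    rw [zero_add, Complex.norm_real, Real.norm_eq_abs, abs_of_pos h0, one_mul, sub_self, abs_zero]

private theorem THG_Gam_aff {F : ℂ → ℂ} {z w c : ℂ} {a x : ℝ} (ha : 0 < a)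
    (hw : (a : ℂ) * z + c = w) (h : LogO F w x) : LogO (fun s => F ((a : ℂ) * s + c)) z x := by
  obtain ⟨C, d, hd, h⟩ := h
  refine ⟨C + |x * Real.log a|, d / a, div_pos hd ha, fun δ h0 h1 => ?_⟩
  have h2 : 0 < a * δ := mul_pos ha h0
  have h3 : a * δ < d := by
    rw [lt_div_iff₀ ha] at h1
    linarith
  obtain ⟨a1, a2⟩ := h (a * δ) h2 h3
  have e : w + ((a * δ : ℝ) : ℂ) = (a : ℂ) * (z + (δ : ℂ)) + c := by
    rw [← hw]
    push_cast
    ring
  rw [e] at a1 a2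
  refine ⟨a1, ?_⟩
  dsimp only
  rw [Real.log_mul ha.ne' h0.ne'] at a2
  have e2 : Real.log ‖F ((a : ℂ) * (z + (δ : ℂ)) + c)‖ - x * Real.log δ =
      (Real.log ‖F ((a : ℂ) * (z + (δ : ℂ)) + c)‖ - x * (Real.log a + Real.log δ)) +
        x * Real.log a := by ring
  rw [e2]
  exact (abs_add_le _ _).trans (add_le_add a2 le_rfl)

private theorem THG_Gam_an (z : ℂ) : AnalyticAt ℂ (fun s => (Complex.Gamma s)⁻¹) z :=
  (Complex.differentiable_one_div_Gamma).analyticAt z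

private theorem THG_Gam_inv (j : ℕ) : LogO (fun s => (Complex.Gamma s)⁻¹) (-(j : ℂ)) 1 := by
  induction j with
  | zero =>
    have h1 : LogO (fun s => (Complex.Gamma (s + 1))⁻¹) 0 0 := by
      apply THG_Gam_zero
      · exact ((Complex.differentiable_one_div_Gamma).comp
          (differentiable_id.add_const (1 : ℂ))).analyticAt 0
      · rw [zero_add, Complex.Gamma_one, inv_one]
        exact one_ne_zero
    have h2 := THG_Gam_id.mul h1
    rw [add_zero] at h2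
    rw [Nat.cast_zero, neg_zero]
    refine h2.congr one_pos fun δ _ _ => ?_
    exact (Complex.one_div_Gamma_eq_self_mul_one_div_Gamma_add_one _).symm
  | succ j ih =>
    have h1 : LogO (fun s => (Complex.Gamma (((1 : ℝ) : ℂ) * s + 1))⁻¹) (-((j + 1 : ℕ) : ℂ)) 1 :=
      THG_Gam_aff one_pos (by push_cast; ring) ih
    have h3 : LogO (fun s => s) (-((j + 1 : ℕ) : ℂ)) 0 := by
      apply THG_Gam_zero analyticAt_id
      show -((j + 1 : ℕ) : ℂ) ≠ 0
      exact neg_ne_zero.2 (Nat.cast_ne_zero.2 (Nat.succ_ne_zero j))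
    have h2 := h3.mul h1
    rw [zero_add] at h2
    refine h2.congr one_pos fun δ _ _ => ?_
    rw [Complex.ofReal_one, one_mul]
    exact (Complex.one_div_Gamma_eq_self_mul_one_div_Gamma_add_one _).symm

private theorem THG_Gam_pow {c : ℂ} (hc : c ≠ 0) {g : ℂ → ℂ} {z : ℂ} (hg : AnalyticAt ℂ g z) :
    AnalyticAt ℂ (fun s => c ^ (g s)) z := by
  have h1 : (fun s => c ^ (g s)) = fun s => Complex.exp (Complex.log c * g s) := by
    funext s
    rw [Complex.cpow_def_of_ne_zero hc]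
  rw [h1]
  exact (analyticAt_const.mul hg).cexp

private theorem THG_Gam_2pi : (2 * Real.pi : ℂ) ≠ 0 := by
  exact_mod_cast (by positivity : (2 * Real.pi : ℝ) ≠ 0)

/-- `gam1` at an analytic argument is analytic and does not vanish -/
private theorem THG_Gam_g1 {g : ℂ → ℂ} {z : ℂ} (hg : AnalyticAt ℂ g z)
    (h : ∀ m : ℕ, g z ≠ -m) :
    AnalyticAt ℂ (fun s => gam1 (g s)) z ∧ gam1 (g z) ≠ 0 := by
  have h0 : Complex.Gamma (g z) ≠ 0 := Complex.Gamma_ne_zero h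
  constructor
  · have h1 : AnalyticAt ℂ (fun s => (Complex.Gamma (g s))⁻¹) z :=
      (THG_Gam_an (g z)).fun_comp hg
    have h2 : AnalyticAt ℂ (fun s => ((Complex.Gamma (g s))⁻¹)⁻¹) z :=
      h1.fun_inv (inv_ne_zero h0)
    have h3 : (fun s => gam1 (g s)) =
        fun s => (2 * Real.pi : ℂ) ^ (-(g s)) * ((Complex.Gamma (g s))⁻¹)⁻¹ := by
      funext s
      rw [inv_inv]
      rfl
    rw [h3]
    exact (THG_Gam_pow THG_Gam_2pi hg.fun_neg).fun_mul h2
  · unfold gam1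
    exact mul_ne_zero (by
      rw [Complex.cpow_def_of_ne_zero THG_Gam_2pi]
      exact Complex.exp_ne_zero _) h0

theorem ord_gR (j : ℕ) : LogO (fun s => gR (2 * s - 1)) (-(j : ℂ)) 0 := by
  have hd : Differentiable ℂ (fun s : ℂ => 2 * s - 1) :=
    (differentiable_id.const_mul (2 : ℂ)).sub_const 1
  have hd' : Differentiable ℂ (fun s : ℂ => 1 - (2 * s - 1)) :=
    (differentiable_const (1 : ℂ)).sub hd
  have h1 : Complex.Gammaℝ (2 * -(j : ℂ) - 1) ≠ 0 := by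
    intro h
    obtain ⟨m, hm⟩ := Complex.Gammaℝ_eq_zero_iff.1 h
    have h2 : ((2 * j + 1 : ℕ) : ℂ) = ((2 * m : ℕ) : ℂ) := by
      push_cast
      linear_combination -hm
    have h3 := Nat.cast_injective (R := ℂ) h2
    omega
  have h2 : Complex.Gammaℝ (1 - (2 * -(j : ℂ) - 1)) ≠ 0 := by
    intro h
    obtain ⟨m, hm⟩ := Complex.Gammaℝ_eq_zero_iff.1 h
    have h2 : ((2 + 2 * j + 2 * m : ℕ) : ℂ) = ((0 : ℕ) : ℂ) := by
      push_cast
      linear_combination hm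
    have h3 := Nat.cast_injective (R := ℂ) h2
    omega
  have h3 : AnalyticAt ℂ (fun s : ℂ => (Complex.Gammaℝ (2 * s - 1))⁻¹) (-(j : ℂ)) :=
    (Complex.differentiable_Gammaℝ_inv.comp hd).analyticAt _
  have h4 : AnalyticAt ℂ (fun s : ℂ => ((Complex.Gammaℝ (1 - (2 * s - 1)))⁻¹)⁻¹) (-(j : ℂ)) :=
    ((Complex.differentiable_Gammaℝ_inv.comp hd').analyticAt (-(j : ℂ))).fun_inv (inv_ne_zero h2)
  have h5 : (fun s : ℂ => gR (2 * s - 1)) = fun s =>
      ((Complex.Gammaℝ (1 - (2 * s - 1)))⁻¹)⁻¹ * (Complex.Gammaℝ (2 * s - 1))⁻¹ := by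
    funext s
    rw [inv_inv]
    rfl
  rw [h5]
  apply THG_Gam_zero (h4.fun_mul h3)
  rw [inv_inv]
  exact mul_ne_zero h2 (inv_ne_zero h1)

theorem ord_gC (j : ℕ) : LogO (fun s => gC (2 * s - 1)) (-(j : ℂ)) 1 := by
  have hd : AnalyticAt ℂ (fun s : ℂ => 2 * s - 1) (-(j : ℂ)) :=
    ((differentiable_id.const_mul (2 : ℂ)).sub_const 1).analyticAt _
  have hd' : AnalyticAt ℂ (fun s : ℂ => 1 - (2 * s - 1)) (-(j : ℂ)) :=
    ((differentiable_const (1 : ℂ)).sub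
      ((differentiable_id.const_mul (2 : ℂ)).sub_const 1)).analyticAt _
  have hm : ∀ m : ℕ, 1 - (2 * -(j : ℂ) - 1) ≠ -m := by
    intro m hm
    have h2 : ((2 + 2 * j + m : ℕ) : ℂ) = ((0 : ℕ) : ℂ) := by
      push_cast
      linear_combination hm
    have h3 := Nat.cast_injective (R := ℂ) h2
    omega
  obtain ⟨k1, k2⟩ := THG_Gam_g1 hd' hm
  have h1 : LogO (fun s => (Complex.Gamma (((2 : ℝ) : ℂ) * s + (-1)))⁻¹) (-(j : ℂ)) 1 :=
    THG_Gam_aff two_pos (w := -((2 * j + 1 : ℕ) : ℂ)) (by push_cast; ring)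
      (THG_Gam_inv (2 * j + 1))
  have h2 : LogO (fun s => gam1 (1 - (2 * s - 1)) * ((2 * Real.pi : ℂ) ^ (-(2 * s - 1)))⁻¹)
      (-(j : ℂ)) 0 := by
    have hne : (2 * Real.pi : ℂ) ^ (-(2 * -(j : ℂ) - 1)) ≠ 0 := by
      rw [Complex.cpow_def_of_ne_zero THG_Gam_2pi]
      exact Complex.exp_ne_zero _
    apply THG_Gam_zero
    · exact k1.fun_mul ((THG_Gam_pow THG_Gam_2pi hd.fun_neg).fun_inv hne)
    · exact mul_ne_zero k2 (inv_ne_zero hne)
  have h3 := h2.mul h1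
  rw [zero_add] at h3
  refine h3.congr one_pos fun δ _ _ => ?_
  generalize -(j : ℂ) + (δ : ℂ) = s
  unfold gC gam1 Complex.Gammaℂ
  have e : ((2 : ℝ) : ℂ) * s + (-1) = 2 * s - 1 := by
    push_cast
    ring
  rw [e, mul_inv, mul_inv]
  have h20 : (2 : ℂ) ≠ 0 := two_ne_zero
  generalize ((2 * Real.pi : ℂ) ^ (-(2 * s - 1)))⁻¹ = A
  generalize (Complex.Gamma (2 * s - 1))⁻¹ = B
  generalize (2 * Real.pi : ℂ) ^ (-(1 - (2 * s - 1))) = D
  generalize Complex.Gamma (1 - (2 * s - 1)) = G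
  field_simp

theorem ord_ig (j : ℕ) : LogO (fun s => (gam1 s)⁻¹) (-(j : ℂ)) 1 := by
  have hne : (2 * Real.pi : ℂ) ^ (-(-(j : ℂ))) ≠ 0 := by
    rw [Complex.cpow_def_of_ne_zero THG_Gam_2pi]
    exact Complex.exp_ne_zero _
  have h2 : LogO (fun s => ((2 * Real.pi : ℂ) ^ (-s))⁻¹) (-(j : ℂ)) 0 := by
    apply THG_Gam_zero
    · exact (THG_Gam_pow THG_Gam_2pi analyticAt_id.fun_neg).fun_inv hne
    · exact inv_ne_zero hne
  have h3 := h2.mul (THG_Gam_inv j)
  rw [zero_add] at h3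
  refine h3.congr one_pos fun δ _ _ => ?_
  unfold gam1
  rw [mul_inv]

theorem ord_ig2 (j : ℕ) : LogO (fun s => (gam1 (s + 1 / 2))⁻¹) (-(j : ℂ)) 0 := by
  have hd : AnalyticAt ℂ (fun s : ℂ => s + 1 / 2) (-(j : ℂ)) :=
    (differentiable_id.add_const (1 / 2 : ℂ)).analyticAt _
  have hm : ∀ m : ℕ, -(j : ℂ) + 1 / 2 ≠ -m := by
    intro m hm
    have h2 : ((2 * m + 1 : ℕ) : ℂ) = ((2 * j : ℕ) : ℂ) := by
      push_cast
      linear_combination 2 * hm
    have h3 := Nat.cast_injective (R := ℂ) h2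
    omega
  obtain ⟨k1, k2⟩ := THG_Gam_g1 hd hm
  exact THG_Gam_zero (k1.fun_inv k2) (inv_ne_zero k2)

theorem ord_g2 (j : ℕ) : LogO (fun s => gam1 (2 - s)) (-(j : ℂ)) 0 := by
  have hd : AnalyticAt ℂ (fun s : ℂ => 2 - s) (-(j : ℂ)) :=
    ((differentiable_const (2 : ℂ)).sub differentiable_id).analyticAt _
  have hm : ∀ m : ℕ, 2 - -(j : ℂ) ≠ -m := by
    intro m hm
    have h2 : ((2 + j + m : ℕ) : ℂ) = ((0 : ℕ) : ℂ) := by
      push_cast
      linear_combination hm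
    have h3 := Nat.cast_injective (R := ℂ) h2
    omega
  obtain ⟨k1, k2⟩ := THG_Gam_g1 hd hm
  exact THG_Gam_zero k1 k2

theorem ord_g3 (j : ℕ) : LogO (fun s => gam1 (3 / 2 - s)) (-(j : ℂ)) 0 := by
  have hd : AnalyticAt ℂ (fun s : ℂ => 3 / 2 - s) (-(j : ℂ)) :=
    ((differentiable_const (3 / 2 : ℂ)).sub differentiable_id).analyticAt _
  have hm : ∀ m : ℕ, 3 / 2 - -(j : ℂ) ≠ -m := by
    intro m hm
    have h2 : ((3 + 2 * j + 2 * m : ℕ) : ℂ) = ((0 : ℕ) : ℂ) := by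
      push_cast
      linear_combination 2 * hm
    have h3 := Nat.cast_injective (R := ℂ) h2
    omega
  obtain ⟨k1, k2⟩ := THG_Gam_g1 hd hm
  exact THG_Gam_zero k1 k2

end Pool.Agent.THG
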