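import Pool.Agent.THG.V.Sum
import Pool.Agent.THG.W.Gam
import Pool.Agent.THF.K.SymN
import Pool.Agent.THF.K.Std
import Pool.Agent.THF.O.Defs

/-!
# THG/W-NDn: the orders at the far negative integers from the functional equation of `A/Chain`

`Bo X R` is the half box.
PLAN.  `isSys0E`, `isExtE`; `Q` from `Th_eval`.  `Fx z ≠ 0` and `Fx` is analytic at `z` for `6 < Re z` (product: `Ls_ne`, `Ls_diff`, `Z1_ne`, `Z1_diff`, `gen_ne`, `gen_diff`-like lemmas of MD, see THF/K/SymN and MD/S; `2 z - 2 ≠ 0`; `Zf 0 1 1 ≠ 0`, `cU ≠ 0`).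
`Gd.dich` for `Q`: in the first case (`Q = 0` for `Re z < b0`; take `b ≤ b0, 3/2 - A, 0`) the equation gives `N s = 0` for `-X < Re s < b` (`2 s - 1 ≠ 0`), so `N = 0` on the box (convex, open: identity theorem), but `N z = Fx z ≠ 0` for `A < Re z < R`: contradiction.
In the second case at `s = -j + δ` (`0 < δ` small): `(2 s - 1)^2 N s = (2 s - 2)^2 (cU^2)⁻¹ Th s * Fx (3/2 - s)`: `Th`: `ord_gR`, `ord_gC`, `ord_ig`, `ord_ig2`, `ord_g2`, `ord_g3`, powers `logO_pow` (THF/O/Defs) and `LogO Q 0`: `(2 r2 + k) + 2 n`; the other factors are analytic and nonzero at `-j` (`logO_of` with order `0`).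
`LogO.congr`, `LogO.of_mul` (THF/O/Defs, MD/S/OrdL) or directly the definition of `LogO`.
-/

namespace Pool.Agent.THG

open NumberField IsDedekindDomain Pool.Agent.HWR Pool.Agent.QD Pool.Agent.QD.In Pool.Agent.LD
  Pool.Agent.MD Pool.Agent.THF

/-- the half box -/
def Bo (X R : ℝ) : Set ℂ := {z | -X < z.re ∧ z.re < R ∧ |z.im| < 1}

private theorem NDn_zero {f : ℂ → ℂ} {z : ℂ} (hf : AnalyticAt ℂ f z) (h : f z ≠ 0) :
    LogO f z 0 := by
  have h1 := logO_of hf (n := 0) (by exact_mod_cast hf.analyticOrderAt_eq_zero.2 h)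
  simpa using h1

private theorem NDn_open (c : ℝ) : IsOpen {z : ℂ | c < z.re} :=
  isOpen_lt continuous_const Complex.continuous_re

private theorem NDn_an {S : SysD} (hS : IsSys0 S) (hE : IsExt S) {z : ℂ} (hz : 6 < z.re) :
    AnalyticAt ℂ (Fx S) z ∧ Fx S z ≠ 0 := by
  have hre : (z + 1 / 2 : ℂ).re = z.re + 1 / 2 := by
    rw [Complex.add_re]
    norm_num
  have hre2 : (2 * z - 1 : ℂ).re = 2 * z.re - 1 := by
    rw [Complex.sub_re, Complex.mul_re]
    norm_num
  have h1 : AnalyticAt ℂ S.Ls z :=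
    (LD.Ls_diff hS).analyticAt ((NDn_open (3 / 2)).mem_nhds (show 3 / 2 < z.re by linarith))
  have h2 : AnalyticAt ℂ (fun s => S.Ls (s + 1 / 2)) z := by
    have h3 : AnalyticAt ℂ S.Ls (z + 1 / 2) :=
      (LD.Ls_diff hS).analyticAt ((NDn_open (3 / 2)).mem_nhds
        (show 3 / 2 < (z + 1 / 2 : ℂ).re by rw [hre]; linarith))
    have hd : Differentiable ℂ (fun s : ℂ => s + 1 / 2) := by fun_prop
    exact AnalyticAt.fun_comp (g := S.Ls) (f := fun s : ℂ => s + 1 / 2) h3 (hd.analyticAt z)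
  have h4 : AnalyticAt ℂ (fun s => S.Z1 (2 * s - 1)) z := by
    have h3 : AnalyticAt ℂ S.Z1 (2 * z - 1) :=
      (LD.Z1_diff hS).analyticAt ((NDn_open 1).mem_nhds
        (show 1 < (2 * z - 1 : ℂ).re by rw [hre2]; linarith))
    have hd : Differentiable ℂ (fun s : ℂ => 2 * s - 1) := by fun_prop
    exact AnalyticAt.fun_comp (g := S.Z1) (f := fun s : ℂ => 2 * s - 1) h3 (hd.analyticAt z)
  have h5 : AnalyticAt ℂ (fun s : ℂ => (2 * s - 2) ^ 2) z :=
    (((differentiable_id.const_mul (2 : ℂ)).sub_const 2).analyticAt z).fun_pow 2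
  have h6 : AnalyticAt ℂ (fun s => Sym S s) z :=
    (gen_diff S.N S.lam hS.hN hS.hlam hS.sumN).analyticAt
      ((NDn_open 1).mem_nhds (show 1 < z.re by linarith))
  constructor
  · exact (analyticAt_const.fun_mul ((h1.fun_mul h2).fun_mul (h5.fun_mul h4))).fun_mul h6
  · unfold Fx
    refine mul_ne_zero (mul_ne_zero (mul_ne_zero (inv_ne_zero (LD.cU_ne hS)) hE.Z_ne)
      (mul_ne_zero (mul_ne_zero (LD.Ls_ne hS (by linarith))
        (LD.Ls_ne hS (by rw [hre]; linarith)))
        (mul_ne_zero (pow_ne_zero 2 ?_) (LD.Z1_ne hS (by rw [hre2]; linarith))))) ?_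
    · intro h
      have h7 : z = 1 := by linear_combination h / 2
      rw [h7, Complex.one_re] at hz
      linarith
    · exact gen_ne S.N S.lam hS.hN hS.hlam hS.sumN (by linarith)

private theorem NDn_box (X R : ℝ) : IsOpen (Bo X R) ∧ IsPreconnected (Bo X R) := by
  have e : Bo X R = {z : ℂ | -X < z.re} ∩ ({z : ℂ | z.re < R} ∩ {z : ℂ | |z.im| < 1}) := by
    ext z
    rfl
  have e2 : {z : ℂ | |z.im| < 1} = {z : ℂ | -1 < z.im} ∩ {z : ℂ | z.im < 1} := by
    ext z
    show |z.im| < 1 ↔ -1 < z.im ∧ z.im < 1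
    exact abs_lt
  constructor
  · rw [e]
    exact (isOpen_lt continuous_const Complex.continuous_re).inter
      ((isOpen_lt Complex.continuous_re continuous_const).inter
        (isOpen_lt (continuous_abs.comp Complex.continuous_im) continuous_const))
  · rw [e, e2]
    refine Convex.isPreconnected ?_
    exact (convex_halfSpace_re_gt (-X)).inter ((convex_halfSpace_re_lt R).inter
      ((convex_halfSpace_im_gt (-1)).inter (convex_halfSpace_im_lt 1)))

private theorem NDn_re (j : ℕ) (δ : ℝ) : (-(j : ℂ) + (δ : ℂ)).re = -(j : ℝ) + δ := by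
  simp

private theorem NDn_im (j : ℕ) (δ : ℝ) : (-(j : ℂ) + (δ : ℂ)).im = 0 := by
  simp

theorem ord_N {T : Finset ℕ} (hT : ∀ p : ℕ, p.Prime → p < 101 → p ∈ T) (D : LocData T)
    {a : ℕ → ℝ} (ha : ∀ q : ℕ, |a q| ≤ 2 * Real.sqrt q) (K : Type) [Field K] [NumberField K]
    {S : Finset (HeightOneSpectrum (𝓞 K))} {T1 : Finset ℕ} (hS : Nic T1 S)
    (hST : ∀ v, ¬ Away K T v → v ∈ S) (ha2 : SqRel K T a) {e : (K →+* ℝ) → ℤ}
    (he : ∀ φ, e φ = 1 ∨ e φ = -1) {A : ℝ} (hA : 6 ≤ A) : ∃ b : ℝ, ∀ (X R : ℝ) (N : ℂ → ℂ),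
      0 < X → A < R → DifferentiableOn ℂ N (Bo X R) →
      (∀ z : ℂ, A < z.re → z.re < R → |z.im| < 1 → N z = Fx (sysE S D a e) z) →
      (∀ s : ℂ, -X < s.re → s.re < 3 / 2 - A → |s.im| < 1 → (2 * s - 1) ^ 2 * N s =
        (2 * s - 2) ^ 2 * (((sysE S D a e).cU : ℂ) ^ 2)⁻¹ * Th (sysE S D a e) s *
          Fx (sysE S D a e) (3 / 2 - s)) →
      ∀ j : ℕ, (j : ℝ) < X → -(j : ℝ) < b → LogO N (-(j : ℂ))
        ((2 * Module.finrank ℚ K + 2 * InfinitePlace.nrComplexPlaces K + kk e : ℕ) : ℝ) := by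
  have hS0 : IsSys0 (sysE S D a e) := isSys0E D hS hST hT ha ha2
  have hE : IsExt (sysE S D a e) := isExtE D hS hT he ha
  obtain ⟨Q, hQ, hTh⟩ := Th_eval D hS hST hT ha ha2 he
  generalize hsy : sysE S D a e = Sy at hS0 hE hTh ⊢
  rcases hQ.dich with ⟨b0, hb0⟩ | ⟨b0, hb0⟩
  · refine ⟨min b0 (3 / 2 - A), ?_⟩
    intro X R N hX hR hN hFx heq j hjX hjb
    exfalso
    obtain ⟨hop, hpre⟩ := NDn_box X R
    have hj0 : (0 : ℝ) ≤ j := Nat.cast_nonneg j
    have hzero : ∀ s : ℂ, -X < s.re → s.re < min b0 (3 / 2 - A) → |s.im| < 1 → N s = 0 := by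
      intro s h1 h2 h3
      have h4 := heq s h1 (h2.trans_le (min_le_right _ _)) h3
      rw [hTh s, hb0 s (h2.trans_le (min_le_left _ _))] at h4
      have h5 : (2 * s - 1) ^ 2 * N s = 0 := by
        rw [h4]
        ring
      refine (mul_eq_zero.1 h5).resolve_left (pow_ne_zero 2 ?_)
      intro h6
      have h7 : s = 1 / 2 := by linear_combination h6 / 2
      have h8 : s.re < 3 / 2 - A := h2.trans_le (min_le_right _ _)
      rw [h7] at h8
      norm_num at h8
      linarith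
    have hmem : (-(j : ℂ)) ∈ Bo X R := by
      refine ⟨?_, ?_, ?_⟩
      · show -X < (-(j : ℂ)).re
        simp
        linarith
      · show (-(j : ℂ)).re < R
        simp
        linarith
      · show |(-(j : ℂ)).im| < 1
        simp
    have hev : N =ᶠ[nhds (-(j : ℂ))] 0 := by
      have h1 : IsOpen ({z : ℂ | -X < z.re} ∩ ({z : ℂ | z.re < min b0 (3 / 2 - A)} ∩
          {z : ℂ | |z.im| < 1})) :=
        (isOpen_lt continuous_const Complex.continuous_re).inter
          ((isOpen_lt Complex.continuous_re continuous_const).inter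
            (isOpen_lt (continuous_abs.comp Complex.continuous_im) continuous_const))
      have h2 : (-(j : ℂ)) ∈ {z : ℂ | -X < z.re} ∩ ({z : ℂ | z.re < min b0 (3 / 2 - A)} ∩
          {z : ℂ | |z.im| < 1}) := by
        refine ⟨hmem.1, ?_, hmem.2.2⟩
        show (-(j : ℂ)).re < min b0 (3 / 2 - A)
        have h3 : (-(j : ℂ)).re = -(j : ℝ) := by simp
        rw [h3]
        exact hjb
      filter_upwards [h1.mem_nhds h2] with z hz
      exact hzero z hz.1 hz.2.1 hz.2.2
    have hall := (hN.analyticOnNhd hop).eqOn_zero_of_preconnected_of_eventuallyEq_zero hpre hmem hev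
    have hz1 : A < (((A + R) / 2 : ℝ) : ℂ).re := by
      rw [Complex.ofReal_re]
      linarith
    have hz2 : (((A + R) / 2 : ℝ) : ℂ).re < R := by
      rw [Complex.ofReal_re]
      linarith
    have hz3 : |(((A + R) / 2 : ℝ) : ℂ).im| < 1 := by
      rw [Complex.ofReal_im]
      norm_num
    have h1 := hall (show (((A + R) / 2 : ℝ) : ℂ) ∈ Bo X R from ⟨by linarith, hz2, hz3⟩)
    have h2 := hFx _ hz1 hz2 hz3
    rw [h1] at h2
    exact (NDn_an hS0 hE (lt_of_le_of_lt hA hz1)).2 h2.symm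
  · refine ⟨min b0 (3 / 2 - A), ?_⟩
    intro X R N hX hR hN hFx heq j hjX hjb
    have hj1 : -(j : ℝ) < b0 := hjb.trans_le (min_le_left _ _)
    have hj2 : -(j : ℝ) < 3 / 2 - A := hjb.trans_le (min_le_right _ _)
    have hre0 : (-(j : ℂ)).re = -(j : ℝ) := by simp
    have k1 := logO_pow (2 * (InfinitePlace.nrRealPlaces K - kk e)) (ord_gR j)
    have k2 := logO_pow (2 * InfinitePlace.nrComplexPlaces K + kk e) (ord_gC j)
    have k3 := logO_pow (2 * Module.finrank ℚ K) ((ord_g2 j).mul (ord_ig j))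
    have k4 := logO_pow (2 * Module.finrank ℚ K) ((ord_g3 j).mul (ord_ig2 j))
    have k5 : LogO Q (-(j : ℂ)) 0 := (hb0 _ (by rw [hre0]; exact hj1)).2.2
    have k6 := ((k1.mul k2).mul (k3.mul k4)).mul k5
    have k7 : LogO (fun s => (2 * s - 2) ^ 2 * ((Sy.cU : ℂ) ^ 2)⁻¹) (-(j : ℂ)) 0 := by
      apply NDn_zero
      · exact ((((differentiable_id.const_mul (2 : ℂ)).sub_const 2).analyticAt _).fun_pow
          2).fun_mul analyticAt_const
      · refine mul_ne_zero (pow_ne_zero 2 ?_) (inv_ne_zero (pow_ne_zero 2 (LD.cU_ne hS0)))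
        intro h
        have h1 : ((2 * j + 2 : ℕ) : ℂ) = ((0 : ℕ) : ℂ) := by
          push_cast
          linear_combination -h
        have h2 := Nat.cast_injective (R := ℂ) h1
        omega
    have k8 : LogO (fun s => Fx Sy (3 / 2 - s)) (-(j : ℂ)) 0 := by
      have h1 : (3 / 2 - -(j : ℂ) : ℂ).re = 3 / 2 + j := by
        rw [Complex.sub_re, hre0]
        norm_num
      obtain ⟨h2, h3⟩ := NDn_an hS0 hE (z := 3 / 2 - -(j : ℂ)) (by rw [h1]; linarith)
      apply NDn_zero
      · exact h2.fun_comp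
          (((differentiable_const (3 / 2 : ℂ)).sub differentiable_id).analyticAt _)
      · exact h3
    have k9 : LogO (fun s : ℂ => (2 * s - 1) ^ 2) (-(j : ℂ)) 0 := by
      apply NDn_zero
      · exact (((differentiable_id.const_mul (2 : ℂ)).sub_const 1).analyticAt _).fun_pow 2
      · refine pow_ne_zero 2 ?_
        intro h
        have h1 : ((2 * j + 1 : ℕ) : ℂ) = ((0 : ℕ) : ℂ) := by
          push_cast
          linear_combination -h
        have h2 := Nat.cast_injective (R := ℂ) h1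
        omega
    have k10 := (k7.mul k6).mul k8
    have hε : 0 < 3 / 2 - A + j := by linarith
    have k11 := k10.congr (g := fun s => (2 * s - 1) ^ 2 * N s) hε (by
      intro δ h0 h1
      have h2 := heq (-(j : ℂ) + (δ : ℂ)) (by rw [NDn_re]; linarith) (by rw [NDn_re]; linarith)
        (by rw [NDn_im]; norm_num)
      rw [h2, hTh])
    have k12 := k11.of_mul k9
    refine (congrArg (LogO N (-(j : ℂ))) ?_).mp k12
    push_cast
    ring

end Pool.Agent.THG
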