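import Pool.Agent.THG.W.NDd
import Pool.Agent.THG.W.NDn
import Pool.Agent.THG.G.SysK

/-!
# THG/W-ND: the symmetric square as a quotient, with the orders at the far negative integers

PLAN.  `S` from `exists_S` (THF/K/Std, `V = ∅`), `SqRel`: `sqRel_of_frob`; `isSys0E`, `isExtE`, `isKnE`, `chain`: `A1`, `exists_Dd`: `A2`, `b2`; `ord_N` for `A1`: `b1`.  `A = max A1 A2`, `b = min b1 b2`; `N` from `chain` for `X`, `R`.
-/

namespace Pool.Agent.THG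

open NumberField IsDedekindDomain Pool.Agent.HWR Pool.Agent.QD Pool.Agent.QD.In Pool.Agent.LD
  Pool.Agent.MD Pool.Agent.THF

theorem exists_ND {T : Finset ℕ} (hTp : ∀ p ∈ T, p.Prime)
    (hT : ∀ p : ℕ, p.Prime → p < 101 → p ∈ T) (D : LocData T) {a : ℕ → ℝ}
    (ha : ∀ q : ℕ, |a q| ≤ 2 * Real.sqrt q) (hfr : FrobRel T a) (hE : ExPM D a) (K : Type)
    [Field K] [NumberField K] {e : (K →+* ℝ) → ℤ} (he : ∀ φ, e φ = 1 ∨ e φ = -1)
    (hx : ∀ x : Kˣ, SG D a x (chi e x)) : ∃ A b : ℝ, 6 ≤ A ∧ ∀ X R : ℝ, 0 < X → A < R →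
      ∃ N Dd : ℂ → ℂ, DifferentiableOn ℂ N (Bo X R) ∧ Differentiable ℂ Dd ∧
        (∀ z ∈ Bo X R, A < z.re → N z = Dd z * SP K a T z) ∧
        ∀ j : ℕ, (j : ℝ) < X → -(j : ℝ) < b →
          LogO N (-(j : ℂ)) ((2 * Module.finrank ℚ K + 2 * InfinitePlace.nrComplexPlaces K +
            kk e : ℕ) : ℝ) ∧
          LogO Dd (-(j : ℂ)) ((Module.finrank ℚ K + InfinitePlace.nrComplexPlaces K : ℕ) : ℝ) := by
  have h2 : 2 ∈ T := hT 2 (by norm_num) (by norm_num)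
  obtain ⟨T1, S, hS, hST, -⟩ := exists_S K T hTp h2 ∅
  have ha2 : SqRel K T a := sqRel_of_frob K T a hfr
  obtain ⟨A1, hA1, hch⟩ := chain (isSys0E D hS hST hT ha ha2) (isExtE D hS hT he ha)
    (isKnE D hS hST hT ha ha2 he hx)
  obtain ⟨A2, b2, Dd, hDd, hF, hord⟩ := exists_Dd hTp hT D ha K (hE.1 K) hS hST ha2 he
  obtain ⟨b1, hb1⟩ := ord_N hT D ha K hS hST ha2 he hA1
  refine ⟨max A1 A2, min b1 b2, hA1.trans (le_max_left _ _), fun X R hX hR => ?_⟩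
  have hR1 : A1 < R := lt_of_le_of_lt (le_max_left _ _) hR
  obtain ⟨N, hN1, hN2, hN3⟩ := hch X R hX hR1
  refine ⟨N, Dd, hN1, hDd, ?_, ?_⟩
  · intro z hz hAz
    rw [hN2 z (lt_of_le_of_lt (le_max_left _ _) hAz) hz.2.1 hz.2.2,
      hF z (lt_of_le_of_lt (le_max_right _ _) hAz)]
  · intro j hj hb
    exact ⟨hb1 X R N hX hR1 hN1 hN2 hN3 j hj (lt_of_lt_of_le hb (min_le_left _ _)),
      hord j (lt_of_lt_of_le hb (min_le_right _ _))⟩

end Pool.Agent.THG
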