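import Pool.Agent.THG.A.Chain
import Pool.Agent.THG.G.SysD
import Pool.Agent.THG.W.Dd
import Pool.Agent.THF.K.SymN
import Pool.Agent.THF.K.Std
import Pool.Agent.THF.O.Defs
import Pool.Agent.QD.F.Trace

/-!
# THG/W-NDd: the known factor of `Fx`

PLAN.  `Λ` from `hp : HWpm D a K`, `F = S.filter (Away K T)`, `Lne` (W/Dd), `Z` from `Z_ord` (W/Zo).
`Dd s = cU⁻¹ * Zf 0 1 1 * (Lne s * Lne (s + 1/2)) * ((2 s - 2) * Z (2 s - 1)) * (∏ v ∈ S, (1 - N^(-(2 s - 1)))) * ∏ v ∈ F, (sfac .. s)⁻¹`.  For `Re s` large `Fx (sysE ..) s = Dd s * SP K a T s`: as in the last part of the proof of `symN` (THF/K/SymN.lean; there with `b s * Lam s` instead of `Lne s`): `Ls s = Lne s` by `LT_split` and `Lne_eq`,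
`(2 s - 2)^2 Z1 (2 s - 1) = (2 s - 2) Z (2 s - 1) ∏ ..`, `Sym = SP ∏ sfac⁻¹`; `Ls`, `Z1`, `Sym`, `Zf`, `cU` of `sysE` are those of `sys` (`rfl` or `show`).
`LogO Dd (-j)`: `n + 0 + r2 + 0 + 0`: `Lne_ord`, `Z_ord`; the products over `S`, `F` are `Ep` functions (not identically zero: nonzero for large `Re s`), so nonzero for `Re s < b`: `Ep.ne` (V/Ep0), `logO_of` with order `0`; constants: `LD.cU_ne`, `Z_ne` (MD), see THF/K/SymN.
-/

namespace Pool.Agent.THG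

open NumberField IsDedekindDomain Pool.Agent.HWR Pool.Agent.QD Pool.Agent.QD.In Pool.Agent.LD
  Pool.Agent.MD Pool.Agent.THF

private theorem NDd_away {K : Type} [Field K] [NumberField K] {T : Finset ℕ}
    (S : Finset (HeightOneSpectrum (𝓞 K))) (hST : ∀ v, ¬ Away K T v → v ∈ S) (v : Io S) :
    Away K T v.1 := by
  by_contra h
  exact v.2 (hST v.1 h)

private theorem NDd_sum {K : Type} [Field K] [NumberField K] {T : Finset ℕ}
    (x : ℝ) (hx : 1 < x) :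
    Summable fun v : {v : HeightOneSpectrum (𝓞 K) // Away K T v} => (nrm v.1 : ℝ) ^ (-x) :=
  (summable_nrm K hx).comp_injective (Subtype.val_injective (p := fun w => Away K T w))

open Classical in
private theorem NDd_split {K : Type} [Field K] [NumberField K] {T : Finset ℕ}
    (S : Finset (HeightOneSpectrum (𝓞 K))) (hST : ∀ v, ¬ Away K T v → v ∈ S)
    (f : HeightOneSpectrum (𝓞 K) → ℂ)
    (hf : Summable fun v : {v : HeightOneSpectrum (𝓞 K) // Away K T v} => ‖f v.1 - 1‖) :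
    ∏' v : {v : HeightOneSpectrum (𝓞 K) // Away K T v}, f v.1 =
      (∏ v ∈ S with Away K T v, f v) * ∏' v : Io S, f v.1 := by
  have h1 := tprod_split (S.subtype fun v => Away K T v) (fun v => f v.1) hf
  rw [h1]
  congr 1
  · rw [← Finset.prod_subtype_eq_prod_filter]
  · have hmem : ∀ v : Io S, (⟨v.1, NDd_away S hST v⟩ :
        {v : HeightOneSpectrum (𝓞 K) // Away K T v}) ∉ S.subtype fun v => Away K T v := by
      intro v h
      rw [Finset.mem_subtype] at h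
      exact v.2 h
    let e : {v : {v : HeightOneSpectrum (𝓞 K) // Away K T v} //
        v ∉ S.subtype fun v => Away K T v} ≃ Io S :=
      { toFun := fun v => ⟨v.1.1, fun h => v.2 (Finset.mem_subtype.2 h)⟩
        invFun := fun v => ⟨⟨v.1, NDd_away S hST v⟩, hmem v⟩
        left_inv := fun v => Subtype.ext (Subtype.ext rfl)
        right_inv := fun v => Subtype.ext rfl }
    exact Equiv.tprod_eq e (fun v : Io S => f v.1)

private theorem NDd_nrm {K : Type} [Field K] [NumberField K] (v : HeightOneSpectrum (𝓞 K)) :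
    2 ≤ nrm v := by
  have h1 := nrm_ne_zero v
  have h2 := nrm_ne_one v
  omega

private theorem NDd_ne {K : Type} [Field K] [NumberField K] (v : HeightOneSpectrum (𝓞 K)) {w : ℂ}
    (hw : 0 < w.re) : (1 : ℂ) - (nrm v : ℂ) ^ (-w) ≠ 0 := by
  intro h0
  have h5 : ‖(nrm v : ℂ) ^ (-w)‖ = 1 := by
    rw [← sub_eq_zero.1 h0, norm_one]
  rw [Complex.norm_natCast_cpow_of_pos (Nat.pos_of_ne_zero (nrm_ne_zero v)), Complex.neg_re] at h5
  have h6 : (1 : ℝ) < nrm v := by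
    have := NDd_nrm v
    exact_mod_cast this
  have h7 : (nrm v : ℝ) ^ (-w.re) < 1 := Real.rpow_lt_one_of_one_lt_of_neg h6 (by linarith)
  linarith

private theorem NDd_zsum {K : Type} [Field K] [NumberField K] {w : ℂ} (hw : 1 < w.re) :
    Summable fun v : HeightOneSpectrum (𝓞 K) => ‖(1 - (nrm v : ℂ) ^ (-w))⁻¹ - 1‖ := by
  refine Summable.of_nonneg_of_le (fun v => norm_nonneg _) (fun v => ?_)
    ((summable_nrm K hw).mul_left 2)
  have hq : (2 : ℝ) ≤ nrm v := by exact_mod_cast NDd_nrm v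
  have hn : ‖(nrm v : ℂ) ^ (-w)‖ = (nrm v : ℝ) ^ (-w.re) := by
    rw [Complex.norm_natCast_cpow_of_pos (Nat.pos_of_ne_zero (nrm_ne_zero v)), Complex.neg_re]
  have hle : ‖(nrm v : ℂ) ^ (-w)‖ ≤ 1 / 2 := by
    rw [hn]
    calc (nrm v : ℝ) ^ (-w.re) ≤ (nrm v : ℝ) ^ (-1 : ℝ) :=
          Real.rpow_le_rpow_of_exponent_le (by linarith) (by linarith)
      _ = (nrm v : ℝ)⁻¹ := Real.rpow_neg_one _
      _ ≤ 1 / 2 := by
          rw [one_div]
          exact inv_anti₀ (by norm_num) hq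
  have hne := NDd_ne v (w := w) (by linarith)
  have h1 : (1 - (nrm v : ℂ) ^ (-w))⁻¹ - 1 = (nrm v : ℂ) ^ (-w) * (1 - (nrm v : ℂ) ^ (-w))⁻¹ := by
    field_simp
    ring
  have h2 : (1 : ℝ) / 2 ≤ ‖1 - (nrm v : ℂ) ^ (-w)‖ := by
    have := norm_sub_norm_le (1 : ℂ) ((nrm v : ℂ) ^ (-w))
    rw [norm_one] at this
    linarith
  rw [h1, norm_mul, norm_inv, hn, mul_comm]
  refine mul_le_mul_of_nonneg_right ?_ (by positivity)
  calc ‖1 - (nrm v : ℂ) ^ (-w)‖⁻¹ ≤ (1 / 2 : ℝ)⁻¹ := inv_anti₀ (by norm_num) h2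
    _ = 2 := by norm_num

private theorem NDd_quad {a : ℕ → ℝ} (ha : ∀ q : ℕ, |a q| ≤ 2 * Real.sqrt q) {q : ℕ}
    (hq : 101 ≤ q) {t : ℂ} (ht : 1 / 2 < t.re) :
    1 - (a q : ℂ) * (q : ℂ) ^ (-t) + (q : ℂ) ^ (1 - 2 * t) ≠ 0 := by
  have hq0 : 0 < q := by omega
  have hq1 : (1 : ℝ) < q := by
    have h : (1 : ℕ) < q := by omega
    exact_mod_cast h
  have hqp : (0 : ℝ) < q := by linarith
  have hqc : (q : ℂ) ≠ 0 := by exact_mod_cast hq0.ne'
  have h1 : Real.sqrt q * ‖(q : ℂ) ^ (-t)‖ < 1 := by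
    rw [Complex.norm_natCast_cpow_of_pos hq0, Complex.neg_re, Real.sqrt_eq_rpow,
      ← Real.rpow_add hqp]
    refine Real.rpow_lt_one_of_one_lt_of_neg hq1 ?_
    linarith
  have h2 := quad_ne (Real.sqrt_nonneg (q : ℝ)) (ha q) (Real.sq_sqrt hqp.le).symm h1
  have h3 : (q : ℂ) ^ (1 - 2 * t) = ((q : ℝ) : ℂ) * ((q : ℂ) ^ (-t)) ^ 2 := by
    have h4 : (1 - 2 * t : ℂ) = 1 + (-t + -t) := by ring
    rw [h4, Complex.cpow_add _ _ hqc, Complex.cpow_one, Complex.cpow_add _ _ hqc, sq]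
    push_cast
    rfl
  rw [h3]
  exact h2

private theorem NDd_prod {ι : Type} (s : Finset ι) {f : ι → ℂ → ℂ} (hf : ∀ i ∈ s, Ep (f i)) :
    Ep fun z => ∏ i ∈ s, f i z := by
  classical
  induction s using Finset.induction_on with
  | empty =>
    simp only [Finset.prod_empty]
    exact Ep.const 1
  | insert a s ha ih =>
    simp only [Finset.prod_insert ha]
    exact (hf a (Finset.mem_insert_self a s)).mul
      (ih fun i hi => hf i (Finset.mem_insert_of_mem hi))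

private theorem NDd_log {f : ℂ → ℂ} {z : ℂ} (hf : Differentiable ℂ f) (h0 : f z ≠ 0) :
    LogO f z 0 := by
  have h1 := logO_of (hf.analyticAt z) (n := 0)
    (by rw [Nat.cast_zero, (hf.analyticAt z).analyticOrderAt_eq_zero]; exact h0)
  rwa [Nat.cast_zero] at h1

private theorem NDd_pow (q : ℕ) (hq : 0 < q) (α β : ℝ) :
    Ep fun z => (q : ℂ) ^ ((α : ℂ) * z + (β : ℂ)) := by
  have h1 := Ep.cpow (A := (q : ℝ)) (by exact_mod_cast hq) α β
  simpa only [Complex.ofReal_natCast] using h1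

private theorem NDd_ep1 (q : ℕ) (hq : 0 < q) : Ep fun z => 1 - (q : ℂ) ^ (-(2 * z - 1)) := by
  have h1 := (Ep.const 1).sub (NDd_pow q hq (-2) 1)
  have e : (fun z : ℂ => 1 - (q : ℂ) ^ (-(2 * z - 1))) =
      fun z : ℂ => 1 - (q : ℂ) ^ (((-2 : ℝ) : ℂ) * z + ((1 : ℝ) : ℂ)) := by
    funext z
    congr 2
    push_cast
    ring
  rw [e]
  exact h1

private theorem NDd_ep2 (q : ℕ) (hq : 0 < q) (lam : ℝ) : Ep fun z => (sfac q lam z)⁻¹ := by
  have h1 : Ep fun z : ℂ => (q : ℂ) ^ (-(2 * z)) := by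
    have h2 := NDd_pow q hq (-2) 0
    have e : (fun z : ℂ => (q : ℂ) ^ (-(2 * z))) =
        fun z : ℂ => (q : ℂ) ^ (((-2 : ℝ) : ℂ) * z + ((0 : ℝ) : ℂ)) := by
      funext z
      congr 1
      push_cast
      ring
    rw [e]
    exact h2
  have e : (fun z => (sfac q lam z)⁻¹) = fun z : ℂ =>
      ((1 - (((lam : ℂ) ^ 2 - 2 * (((q : ℝ) : ℂ)))) * (q : ℂ) ^ (-(2 * z))) +
        (((q : ℝ) : ℂ) ^ 2) * ((q : ℂ) ^ (-(2 * z)) * (q : ℂ) ^ (-(2 * z)))) *
        (1 - (q : ℂ) * (q : ℂ) ^ (-(2 * z))) := by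
    funext z
    unfold sfac E2
    rw [inv_inv]
    ring
  rw [e]
  exact (((Ep.const 1).sub ((Ep.const _).mul h1)).add ((Ep.const _).mul (h1.mul h1))).mul
    ((Ep.const 1).sub ((Ep.const _).mul h1))

theorem exists_Dd {T : Finset ℕ} (hTp : ∀ p ∈ T, p.Prime)
    (hT : ∀ p : ℕ, p.Prime → p < 101 → p ∈ T) (D : LocData T) {a : ℕ → ℝ}
    (ha : ∀ q : ℕ, |a q| ≤ 2 * Real.sqrt q) (K : Type) [Field K] [NumberField K]
    (hp : HWpm D a K) {S : Finset (HeightOneSpectrum (𝓞 K))} {T1 : Finset ℕ} (hS : Nic T1 S)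
    (hST : ∀ v, ¬ Away K T v → v ∈ S) (ha2 : SqRel K T a) {e : (K →+* ℝ) → ℤ}
    (he : ∀ φ, e φ = 1 ∨ e φ = -1) : ∃ (A b : ℝ) (Dd : ℂ → ℂ), Differentiable ℂ Dd ∧
      (∀ z : ℂ, A < z.re → Fx (sysE S D a e) z = Dd z * SP K a T z) ∧
      ∀ j : ℕ, -(j : ℝ) < b → LogO Dd (-(j : ℂ))
        ((Module.finrank ℚ K + InfinitePlace.nrComplexPlaces K : ℕ) : ℝ) := by
  classical
  obtain ⟨Λ, hΛd, -, hfe, hΛe⟩ := hp
  set F := S.filter (fun v => Away K T v) with hFdef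
  have hF : ∀ v ∈ F, Away K T v := fun v hv => (Finset.mem_filter.1 hv).2
  have hS0 : IsSys0 (sysE S D a e) := isSys0E D hS hST hT ha ha2
  have hE : IsExt (sysE S D a e) := isExtE D hS hT he ha
  obtain ⟨Z, hZd, hZe, hZo⟩ := Z_ord K
  obtain ⟨b1, hb1⟩ := Lne_ord D hTp hT ha F hF hΛd hfe hΛe
  have hq : ∀ v, Away K T v → 101 ≤ nrm v := fun v hv => nrm_away K T hT v hv
  have hqp : ∀ v : HeightOneSpectrum (𝓞 K), 0 < nrm v := fun v =>
    Nat.pos_of_ne_zero (nrm_ne_zero v)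
  have hre : ∀ s : ℂ, (s + 1 / 2 : ℂ).re = s.re + 1 / 2 := fun s => by
    rw [Complex.add_re]
    norm_num
  have hre2 : ∀ s : ℂ, (2 * s - 1 : ℂ).re = 2 * s.re - 1 := fun s => by
    rw [Complex.sub_re, Complex.mul_re]
    norm_num
  have hp1 : Ep fun s => ∏ v ∈ S, (1 - (nrm v : ℂ) ^ (-(2 * s - 1))) :=
    NDd_prod S fun v _ => NDd_ep1 (nrm v) (hqp v)
  have hp2 : Ep fun s => ∏ v ∈ F, (sfac (nrm v) (a (nrm v)) s)⁻¹ :=
    NDd_prod F fun v _ => NDd_ep2 (nrm v) (hqp v) (a (nrm v))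
  have hp1n : ∏ v ∈ S, (1 - (nrm v : ℂ) ^ (-(2 * (1 : ℂ) - 1))) ≠ 0 :=
    Finset.prod_ne_zero_iff.2 fun v _ => NDd_ne v (by rw [hre2]; norm_num)
  have hp2n : ∏ v ∈ F, (sfac (nrm v) (a (nrm v)) (1 : ℂ))⁻¹ ≠ 0 :=
    Finset.prod_ne_zero_iff.2 fun v hv => inv_ne_zero
      (sfac_ne (hq _ (hF v hv)) (ha _) (by norm_num))
  obtain ⟨b2, hb2⟩ := hp1.ne hp1n
  obtain ⟨b3, hb3⟩ := hp2.ne hp2n
  have hc0 : ((sysE S D a e).cU : ℂ)⁻¹ * (sysE S D a e).Zf 0 1 1 ≠ 0 :=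
    mul_ne_zero (inv_ne_zero (LD.cU_ne hS0)) hE.Z_ne
  have hLd := Lne_diff D a F hΛd
  refine ⟨6, min b1 (min b2 b3), fun s => ((sysE S D a e).cU : ℂ)⁻¹ * (sysE S D a e).Zf 0 1 1 *
    (Lne D a F Λ s * Lne D a F Λ (s + 1 / 2)) * ((2 * s - 2) * Z (2 * s - 1)) *
    (∏ v ∈ S, (1 - (nrm v : ℂ) ^ (-(2 * s - 1)))) *
    ∏ v ∈ F, (sfac (nrm v) (a (nrm v)) s)⁻¹, ?_, ?_, ?_⟩
  · have h1 : Differentiable ℂ fun s : ℂ => Lne D a F Λ (s + 1 / 2) :=
      hLd.comp (differentiable_id.add (differentiable_const (1 / 2)))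
    have h2 : Differentiable ℂ fun s : ℂ => (2 * s - 2) * Z (2 * s - 1) := by
      refine Differentiable.mul (by fun_prop) ?_
      exact hZd.comp ((differentiable_id.const_mul 2).sub (differentiable_const 1))
    exact ((((hLd.mul h1).const_mul _).mul h2).mul hp1.diff).mul hp2.diff
  · intro s hs
    have h4 : ∀ t : ℂ, 3 / 2 < t.re → (sys S D a).Ls t = Lne D a F Λ t := by
      intro t ht
      rw [Lne_eq D hTp a F ht (hΛe t ht), LT_split S hST hT ha ht]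
      have h5 : (∏ v ∈ F, efac a (nrm v) t) *
          ∏ v ∈ F, (1 - (a (nrm v) : ℂ) * (nrm v : ℂ) ^ (-t) + (nrm v : ℂ) ^ (1 - 2 * t)) = 1 := by
        rw [← Finset.prod_mul_distrib]
        refine Finset.prod_eq_one fun v hv => ?_
        unfold efac
        exact inv_mul_cancel₀ (NDd_quad ha (hq _ (hF v hv)) (by linarith))
      have h6 : (sys S D a).Ls t = ∏' v : Io S, ef a (nrm v.1) 1 t := rfl
      rw [h6]
      have h7 : (∏ v ∈ S with Away K T v, efac a (nrm v) t) = ∏ v ∈ F, efac a (nrm v) t := by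
        rw [hFdef]
      calc ∏' v : Io S, ef a (nrm v.1) 1 t
          = (∏' v : Io S, ef a (nrm v.1) 1 t) * ((∏ v ∈ F, efac a (nrm v) t) *
          ∏ v ∈ F, (1 - (a (nrm v) : ℂ) * (nrm v : ℂ) ^ (-t) + (nrm v : ℂ) ^ (1 - 2 * t))) := by
            rw [h5, mul_one]
        _ = _ := by rw [← h7]; ring
    have h6 : (2 * s - 2) ^ 2 * (sys S D a).Z1 (2 * s - 1) = (2 * s - 2) * Z (2 * s - 1) *
        ∏ v ∈ S, (1 - (nrm v : ℂ) ^ (-(2 * s - 1))) := by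
      have hw : 1 < (2 * s - 1 : ℂ).re := by rw [hre2]; linarith
      rw [hZe _ hw]
      have hsplit := tprod_split S
        (fun v : HeightOneSpectrum (𝓞 K) => (1 - (nrm v : ℂ) ^ (-(2 * s - 1)))⁻¹) (NDd_zsum hw)
      have h8 : (∏ v ∈ S, (1 - (nrm v : ℂ) ^ (-(2 * s - 1)))⁻¹) *
          ∏ v ∈ S, (1 - (nrm v : ℂ) ^ (-(2 * s - 1))) = 1 := by
        rw [← Finset.prod_mul_distrib]
        exact Finset.prod_eq_one fun v _ => inv_mul_cancel₀ (NDd_ne v (by linarith))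
      unfold ZP
      rw [hsplit]
      show (2 * s - 2) ^ 2 * ∏' v : Io S, (1 - (nrm v.1 : ℂ) ^ (-(2 * s - 1)))⁻¹ = _
      calc (2 * s - 2) ^ 2 * ∏' v : Io S, (1 - (nrm v.1 : ℂ) ^ (-(2 * s - 1)))⁻¹
          = (2 * s - 2) ^ 2 * (∏' v : Io S, (1 - (nrm v.1 : ℂ) ^ (-(2 * s - 1)))⁻¹) *
            ((∏ v ∈ S, (1 - (nrm v : ℂ) ^ (-(2 * s - 1)))⁻¹) *
              ∏ v ∈ S, (1 - (nrm v : ℂ) ^ (-(2 * s - 1)))) := by rw [h8, mul_one]
        _ = _ := by ring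
    have hSP : SP K a T s = Sym (sys S D a) s * ∏ v ∈ F, sfac (nrm v) (a (nrm v)) s := by
      have hg := gen_sum (fun v : {v : HeightOneSpectrum (𝓞 K) // Away K T v} => nrm v.1)
        (fun v => a (nrm v.1)) (fun v => nrm_ge K T hT v.1 v.2) (fun v => ha _)
        (fun x hx => NDd_sum x hx) (s := s) (by linarith)
      unfold SP
      rw [NDd_split S hST (fun v => sfac (nrm v) (a (nrm v)) s) hg, mul_comm]
      rfl
    have h7 : Sym (sys S D a) s = SP K a T s * ∏ v ∈ F, (sfac (nrm v) (a (nrm v)) s)⁻¹ := by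
      rw [hSP, Finset.prod_inv_distrib, mul_assoc, mul_inv_cancel₀, mul_one]
      exact Finset.prod_ne_zero_iff.2 fun v hv => sfac_ne (hq _ (hF v hv)) (ha _) (by linarith)
    have h8 : Fx (sysE S D a e) s = ((sysE S D a e).cU : ℂ)⁻¹ * (sysE S D a e).Zf 0 1 1 *
        ((sys S D a).Ls s * (sys S D a).Ls (s + 1 / 2) *
          ((2 * s - 2) ^ 2 * (sys S D a).Z1 (2 * s - 1))) * Sym (sys S D a) s := rfl
    rw [h8, h4 s (by linarith), h4 (s + 1 / 2) (by rw [hre]; linarith), h6, h7]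
    ring
  · intro j hj
    obtain ⟨hL1, hL2⟩ := hb1 j (lt_of_lt_of_le hj (min_le_left _ _))
    have hjre : (-(j : ℂ)).re = -(j : ℝ) := by simp
    have h1 : LogO (fun s => ∏ v ∈ S, (1 - (nrm v : ℂ) ^ (-(2 * s - 1)))) (-(j : ℂ)) 0 := by
      refine NDd_log hp1.diff (hb2 _ ?_)
      rw [hjre]
      exact lt_of_lt_of_le hj ((min_le_right _ _).trans (min_le_left _ _))
    have h2 : LogO (fun s => ∏ v ∈ F, (sfac (nrm v) (a (nrm v)) s)⁻¹) (-(j : ℂ)) 0 := by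
      refine NDd_log hp2.diff (hb3 _ ?_)
      rw [hjre]
      exact lt_of_lt_of_le hj ((min_le_right _ _).trans (min_le_right _ _))
    have h0 : LogO (fun _ => ((sysE S D a e).cU : ℂ)⁻¹ * (sysE S D a e).Zf 0 1 1) (-(j : ℂ)) 0 :=
      NDd_log (differentiable_const _) hc0
    have h3 := (((h0.mul (hL1.mul hL2)).mul (hZo j)).mul h1).mul h2
    have e1 : (0 + ((Module.finrank ℚ K : ℝ) + 0) + (InfinitePlace.nrComplexPlaces K : ℝ) + 0 + 0) =
        ((Module.finrank ℚ K + InfinitePlace.nrComplexPlaces K : ℕ) : ℝ) := by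
      push_cast
      ring
    rw [e1] at h3
    exact h3

end Pool.Agent.THG
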