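import Pool.Agent.THG.W.Gam
import Pool.Agent.QD.N1Main
import Pool.Agent.QD.In.Def
import Pool.Agent.LD.I.Sys0
import Pool.Agent.THF.O.Defs
import Pool.Agent.MD.S.Defs

/-!
# THG/W-Zo: the Dedekind zeta function at the negative odd integers

PLAN.  `zeta_fe K` (QD/N1Main), `w = 2 s - 1`, `Re w < 0`: `Z w = (w - 1) |d|^(1/2 - w) gR w ^ r1 gC w ^ r2 ZP (1 - w)`-like: orders at `s = -j`: `0`, `0`, `0` (`ord_gR`), `r2` (`ord_gC`), `0` (`ZP (1 - w) ≠ 0`, continuous: `Z (1 - w) = - w * ZP (1 - w)`, `Z` entire, nonzero there: `ZP ≠ 0` as in `s1_ZP`, THF/K/St1 (private: copy));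
`2 s - 2` is `-2 j - 2 ≠ 0`.  Powers: `logO_pow` (THF/O/Defs) or induction with `LogO.mul`.
-/

namespace Pool.Agent.THG

open NumberField IsDedekindDomain Pool.Agent.HWR Pool.Agent.QD Pool.Agent.QD.In Pool.Agent.LD
  Pool.Agent.MD

private theorem wzo_two {K : Type} [Field K] [NumberField K] (v : HeightOneSpectrum (𝓞 K)) :
    2 ≤ nrm v := by
  have h1 := nrm_ne_zero v
  have h2 := nrm_ne_one v
  omega

private theorem wzo_ne {K : Type} [Field K] [NumberField K] (v : HeightOneSpectrum (𝓞 K)) {w : ℂ}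
    (hw : 0 < w.re) : (1 : ℂ) - (nrm v : ℂ) ^ (-w) ≠ 0 := by
  intro h0
  have h5 : ‖(nrm v : ℂ) ^ (-w)‖ = 1 := by
    rw [← sub_eq_zero.1 h0, norm_one]
  rw [Complex.norm_natCast_cpow_of_pos (Nat.pos_of_ne_zero (nrm_ne_zero v)), Complex.neg_re] at h5
  have h6 : (1 : ℝ) < nrm v := by
    have := wzo_two v
    exact_mod_cast this
  have h7 : (nrm v : ℝ) ^ (-w.re) < 1 := Real.rpow_lt_one_of_one_lt_of_neg h6 (by linarith)
  linarith

private theorem wzo_zsum {K : Type} [Field K] [NumberField K] {w : ℂ} (hw : 1 < w.re) :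
    Summable fun v : HeightOneSpectrum (𝓞 K) => ‖(1 - (nrm v : ℂ) ^ (-w))⁻¹ - 1‖ := by
  refine Summable.of_nonneg_of_le (fun v => norm_nonneg _) (fun v => ?_)
    ((summable_nrm K hw).mul_left 2)
  have hq : (2 : ℝ) ≤ nrm v := by exact_mod_cast wzo_two v
  have hn : ‖(nrm v : ℂ) ^ (-w)‖ = (nrm v : ℝ) ^ (-w.re) := by
    rw [Complex.norm_natCast_cpow_of_pos (Nat.pos_of_ne_zero (nrm_ne_zero v)), Complex.neg_re]
  have hle : ‖(nrm v : ℂ) ^ (-w)‖ ≤ 1 / 2 := by
    rw [hn]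
    calc (nrm v : ℝ) ^ (-w.re) ≤ (nrm v : ℝ) ^ (-1 : ℝ) :=
          Real.rpow_le_rpow_of_exponent_le (by linarith) (by linarith)
      _ = (nrm v : ℝ)⁻¹ := Real.rpow_neg_one _
      _ ≤ 1 / 2 := by
          rw [one_div]
          exact inv_anti₀ (by norm_num) hq
  have hne := wzo_ne v (w := w) (by linarith)
  have h1 : (1 - (nrm v : ℂ) ^ (-w))⁻¹ - 1 = (nrm v : ℂ) ^ (-w) * (1 - (nrm v : ℂ) ^ (-w))⁻¹ := by
    field_simp
    ring
  have h2 : (1 : ℝ) / 2 ≤ ‖1 - (nrm v : ℂ) ^ (-w)‖ := by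
    have := norm_sub_norm_le (1 : ℂ) ((nrm v : ℂ) ^ (-w))
    rw [norm_one] at this
    linarith
  rw [h1, norm_mul, norm_inv, hn, mul_comm]
  refine mul_le_mul_of_nonneg_right ?_ (by positivity)
  calc ‖1 - (nrm v : ℂ) ^ (-w)‖⁻¹ ≤ (1 / 2 : ℝ)⁻¹ := inv_anti₀ (by norm_num) h2
    _ = 2 := by norm_num

private theorem wzo_ZP {K : Type} [Field K] [NumberField K] {w : ℂ} (hw : 1 < w.re) :
    ZP K w ≠ 0 :=
  tprod_ne_zero' _ (wzo_zsum hw) fun v => inv_ne_zero (wzo_ne v (by linarith))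

private theorem wzo_lo {f : ℂ → ℂ} {z : ℂ} (hf : AnalyticAt ℂ f z) (h0 : f z ≠ 0) :
    LogO f z 0 := by
  have h1 : analyticOrderAt f z = ((0 : ℕ) : ℕ∞) := by
    rw [Nat.cast_zero]
    exact hf.analyticOrderAt_eq_zero.2 h0
  have h2 := logO_of hf h1
  rwa [Nat.cast_zero] at h2

private theorem wzo_lin (j : ℕ) : LogO (fun s => 2 * s - 2) (-(j : ℂ)) 0 := by
  refine wzo_lo ?_ ?_
  · exact ((differentiable_const (2 : ℂ)).mul differentiable_id).sub_const 2 |>.analyticAt _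
  · intro h
    have h1 := congrArg Complex.re h
    simp only [Complex.sub_re, Complex.mul_re, Complex.neg_re, Complex.neg_im, Complex.natCast_re,
      Complex.natCast_im, Complex.re_ofNat, Complex.im_ofNat, Complex.zero_re] at h1
    have h2 : (0 : ℝ) ≤ j := Nat.cast_nonneg j
    linarith

private theorem wzo_cpow {d : ℂ} (hd : d ≠ 0) (j : ℕ) :
    LogO (fun s => d ^ (1 / 2 - (2 * s - 1))) (-(j : ℂ)) 0 := by
  refine wzo_lo ?_ ?_
  · have h : Differentiable ℂ fun s : ℂ => d ^ (1 / 2 - (2 * s - 1)) := by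
      intro s
      refine DifferentiableAt.const_cpow ?_ (Or.inl hd)
      exact (differentiableAt_const _).sub (((differentiableAt_const _).mul
        differentiableAt_id).sub_const 1)
    exact h.analyticAt _
  · have hy : (1 / 2 - (2 * -(j : ℂ) - 1)) ≠ 0 := by
      intro h
      have h1 := congrArg Complex.re h
      simp only [Complex.sub_re, Complex.mul_re, Complex.neg_re, Complex.neg_im,
        Complex.natCast_re, Complex.natCast_im, Complex.re_ofNat, Complex.im_ofNat,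
        Complex.zero_re, Complex.one_re, Complex.div_re, Complex.one_im,
        Complex.normSq_ofNat] at h1
      have h2 : (0 : ℝ) ≤ j := Nat.cast_nonneg j
      norm_num at h1
      linarith
    exact (Complex.cpow_ne_zero_iff_of_exponent_ne_zero hy).2 hd

theorem Z_ord (K : Type) [Field K] [NumberField K] : ∃ Z : ℂ → ℂ, Differentiable ℂ Z ∧
    (∀ w : ℂ, 1 < w.re → Z w = (w - 1) * ZP K w) ∧ ∀ j : ℕ,
      LogO (fun s => (2 * s - 2) * Z (2 * s - 1)) (-(j : ℂ)) (InfinitePlace.nrComplexPlaces K) := by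
  obtain ⟨Z, hZ, -, -, h1, h2⟩ := zeta_fe K
  refine ⟨Z, hZ, h1, fun j => ?_⟩
  have hj : (0 : ℝ) ≤ j := Nat.cast_nonneg j
  have hd : ((((|NumberField.discr K| : ℤ) : ℝ) : ℂ)) ≠ 0 := by
    have h3 : |NumberField.discr K| ≠ 0 := abs_ne_zero.2 (NumberField.discr_ne_zero K)
    exact_mod_cast h3
  have hre : ∀ δ : ℝ, (-(j : ℂ) + (δ : ℂ)).re = -j + δ := fun δ => by
    simp only [Complex.add_re, Complex.neg_re, Complex.natCast_re, Complex.ofReal_re]
  have hre1 : ∀ s : ℂ, (2 * s - 1 : ℂ).re = 2 * s.re - 1 := fun s => by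
    simp only [Complex.sub_re, Complex.mul_re, Complex.re_ofNat, Complex.im_ofNat, Complex.one_re]
    ring
  have hre2 : ∀ s : ℂ, (1 - (2 * s - 1) : ℂ).re = 2 - 2 * s.re := fun s => by
    rw [Complex.sub_re, hre1, Complex.one_re]
    ring
  -- the last factor
  have hZP : LogO (fun s => ZP K (1 - (2 * s - 1))) (-(j : ℂ)) 0 := by
    have hn : (1 - (2 * -(j : ℂ) - 1) - 1 : ℂ) ≠ 0 := by
      intro h
      have h3 := congrArg Complex.re h
      rw [Complex.sub_re, hre2, Complex.one_re, Complex.zero_re, Complex.neg_re,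
        Complex.natCast_re] at h3
      linarith
    have hr : (1 : ℝ) < (1 - (2 * -(j : ℂ) - 1) : ℂ).re := by
      rw [hre2, Complex.neg_re, Complex.natCast_re]
      linarith
    have hl : Differentiable ℂ fun s : ℂ => 1 - (2 * s - 1) :=
      (differentiable_const _).sub (((differentiable_const _).mul differentiable_id).sub_const 1)
    have h3 : LogO (fun s => Z (1 - (2 * s - 1)) / (1 - (2 * s - 1) - 1)) (-(j : ℂ)) 0 := by
      refine wzo_lo ?_ ?_
      · exact ((hZ.comp hl).analyticAt _).div ((hl.sub_const 1).analyticAt _) hn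
      · rw [h1 _ hr, mul_div_assoc, mul_comm]
        rw [div_mul_cancel₀ _ hn]
        exact wzo_ZP hr
    refine h3.congr (ε := 1 / 2) (by norm_num) fun δ h4 h5 => ?_
    have hr' : (1 : ℝ) < (1 - (2 * (-(j : ℂ) + (δ : ℂ)) - 1) : ℂ).re := by
      rw [hre2, hre]
      linarith
    have hn' : (1 - (2 * (-(j : ℂ) + (δ : ℂ)) - 1) - 1 : ℂ) ≠ 0 := by
      intro h
      have h3 := congrArg Complex.re h
      rw [Complex.sub_re, hre2, Complex.one_re, Complex.zero_re, hre] at h3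
      linarith
    rw [h1 _ hr', mul_div_assoc, mul_comm, div_mul_cancel₀ _ hn']
  have h3 := (wzo_lin j).mul ((((((wzo_lin j).mul (wzo_cpow hd j)).mul
    (Pool.Agent.THF.logO_pow (InfinitePlace.nrRealPlaces K) (ord_gR j))).mul
    (Pool.Agent.THF.logO_pow (InfinitePlace.nrComplexPlaces K) (ord_gC j)))).mul hZP)
  have h4 : (0 : ℝ) + (0 + 0 + (InfinitePlace.nrRealPlaces K : ℝ) * 0 +
      (InfinitePlace.nrComplexPlaces K : ℝ) * 1 + 0) = InfinitePlace.nrComplexPlaces K := by ring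
  rw [h4] at h3
  refine h3.congr (ε := 1 / 2) (by norm_num) fun δ h5 h6 => ?_
  have h7 : (2 * (-(j : ℂ) + (δ : ℂ)) - 1 : ℂ).re < 0 := by
    rw [hre1, hre]
    linarith
  rw [h2 _ h7]
  have h8 : (2 * (-(j : ℂ) + (δ : ℂ)) - 1 - 1 : ℂ) = 2 * (-(j : ℂ) + (δ : ℂ)) - 2 := by ring
  rw [h8]

end Pool.Agent.THG
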